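import Pool.Agent.W273.M.Direct

/-!
Assembly: the theorem for all exponents.
-/

set_option autoImplicit false

namespace Pool.Agent.W273.M

open Polynomial Finset Pool.Agent.W273.Z

/-- all exponents in a compact range -/
theorem asm0 (g : ℕ) (κ ε : ℝ) (hκ : 0 ≤ κ) (hε : 0 < ε) :
    ∃ C₀ : ℝ, 1 ≤ C₀ ∧ ∀ x y : ℤ, 0 < y → y ^ 2 ≠ x ^ dd g → ∀ w : ℝ, 1 ≤ w → w ^ 2 = x →
      ∀ a b : ℤ, 1 ≤ b → ∀ lam β τ : ℝ, 0 ≤ β → β ≤ κ → 0 ≤ lam → lam ≤ 1 → 0 ≤ τ →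
      |((y ^ 2 - x ^ dd g : ℤ) : ℝ)| ≤ w ^ (2 * dd g * τ) → (b : ℝ) ≤ w ^ β →
      |w - a / b| ≤ w ^ (-(lam + 2 * β)) → τ * (1 + 2 * lam + 2 * β) ≤ lam - ε →
      w ≤ C₀ ∨ ∃ j : ℕ, 1 ≤ j ∧ a * (zz g x y ^ j).im = b * (zz g x y ^ j).re := by
  obtain ⟨η, hη⟩ : ∃ η : ℝ, η = ε / (7 + 2 * κ) := ⟨_, rfl⟩
  have hη0 : 0 < η := by rw [hη]; positivity
  have hηε : η * (7 + 2 * κ) = ε := by rw [hη, div_mul_cancel₀]; positivity
  have hηκ : 0 ≤ η * κ := by positivity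
  have hgrid : ∀ i1 i2 i3 : ℕ, ∃ C : ℝ, ((i3 : ℝ) * η < 1 / 2 → 2 * ((i2 : ℝ) * η) < i1 * η →
      ((i3 : ℝ) * η) * (1 + 2 * (i1 * η) - 2 * (i2 * η)) < i1 * η - 2 * (i2 * η) →
      ∀ x y : ℤ, 0 < y → y ^ 2 ≠ x ^ dd g → ∀ w : ℝ, 1 ≤ w → w ^ 2 = x →
      |((y ^ 2 - x ^ dd g : ℤ) : ℝ)| ≤ w ^ (2 * dd g * (i3 * η)) → ∀ a b : ℤ, 1 ≤ b → (b : ℝ) ≤ w ^ (i2 * η) →
      |w - a / b| ≤ w ^ (-(i1 * η)) →
      w ≤ C ∨ ∃ j : ℕ, 1 ≤ j ∧ a * (zz g x y ^ j).im = b * (zz g x y ^ j).re) := by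
    intro i1 i2 i3
    by_cases h : (i3 : ℝ) * η < 1 / 2 ∧ 2 * ((i2 : ℝ) * η) < i1 * η ∧
        ((i3 : ℝ) * η) * (1 + 2 * (i1 * η) - 2 * (i2 * η)) < i1 * η - 2 * (i2 * η)
    · obtain ⟨C, hC⟩ := fixed g (i1 * η) (i2 * η) (i3 * η) (by positivity) (by positivity) h.1 h.2.1 h.2.2
      exact ⟨C, fun _ _ _ => hC⟩
    · exact ⟨0, fun h1 h2 h3 => absurd ⟨h1, h2, h3⟩ h⟩
  choose C hC using hgrid
  obtain ⟨I1, hI1⟩ : ∃ I1 : ℕ, I1 = ⌈(1 + 2 * κ) / η⌉₊ := ⟨_, rfl⟩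
  obtain ⟨I2, hI2⟩ : ∃ I2 : ℕ, I2 = ⌈κ / η⌉₊ := ⟨_, rfl⟩
  obtain ⟨I3, hI3⟩ : ∃ I3 : ℕ, I3 = ⌈1 / η⌉₊ := ⟨_, rfl⟩
  refine ⟨1 + ∑ i1 ∈ range (I1 + 1), ∑ i2 ∈ range (I2 + 1), ∑ i3 ∈ range (I3 + 1), |C i1 i2 i3|, ?_, ?_⟩
  · have : 0 ≤ ∑ i1 ∈ range (I1 + 1), ∑ i2 ∈ range (I2 + 1), ∑ i3 ∈ range (I3 + 1), |C i1 i2 i3| := by
      positivity
    linarith
  intro x y hy hne w hw1 hwx a b hb lam β τ hβ0 hβκ hl0 hl1 hτ0 hh hbw hab hτ
  have hw : 0 < w := by linarith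
  -- bounds for τ
  have hτle : τ < 1 / 2 - η := by
    have h1 : τ * (1 + 2 * lam) ≤ lam - ε := by
      have : 0 ≤ τ * (2 * β) := by positivity
      linarith
    have h2 : τ * (1 + 2 * lam) < (1 / 2 - η) * (1 + 2 * lam) := by
      have : η * (1 + 2 * lam) ≤ η * 3 := mul_le_mul_of_nonneg_left (by linarith) hη0.le
      nlinarith
    exact lt_of_mul_lt_mul_right h2 (by linarith)
  have hlε : ε ≤ lam := by
    have : 0 ≤ τ * (1 + 2 * lam + 2 * β) := by positivity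
    linarith
  -- the grid point
  obtain ⟨i1, hi1⟩ : ∃ i1 : ℕ, i1 = ⌊(lam + 2 * β) / η⌋₊ := ⟨_, rfl⟩
  obtain ⟨i2, hi2⟩ : ∃ i2 : ℕ, i2 = ⌈β / η⌉₊ := ⟨_, rfl⟩
  obtain ⟨i3, hi3⟩ : ∃ i3 : ℕ, i3 = ⌈τ / η⌉₊ := ⟨_, rfl⟩
  have a1 : (i1 : ℝ) * η ≤ lam + 2 * β := by
    have : (i1 : ℝ) ≤ (lam + 2 * β) / η := by rw [hi1]; exact Nat.floor_le (by positivity)
    rwa [le_div_iff₀ hη0] at this
  have a1' : lam + 2 * β < i1 * η + η := by
    have : (lam + 2 * β) / η < i1 + 1 := by rw [hi1]; exact Nat.lt_floor_add_one _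
    rw [div_lt_iff₀ hη0] at this
    linarith
  have a2 : β ≤ i2 * η := by
    have : β / η ≤ i2 := by rw [hi2]; exact Nat.le_ceil _
    rwa [div_le_iff₀ hη0] at this
  have a2' : (i2 : ℝ) * η < β + η := by
    have : (i2 : ℝ) < β / η + 1 := by rw [hi2]; exact Nat.ceil_lt_add_one (by positivity)
    have h := mul_lt_mul_of_pos_right this hη0
    rw [add_mul, div_mul_cancel₀ _ hη0.ne', one_mul] at h
    exact h
  have a3 : τ ≤ i3 * η := by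
    have : τ / η ≤ i3 := by rw [hi3]; exact Nat.le_ceil _
    rwa [div_le_iff₀ hη0] at this
  have a3' : (i3 : ℝ) * η < τ + η := by
    have : (i3 : ℝ) < τ / η + 1 := by rw [hi3]; exact Nat.ceil_lt_add_one (by positivity)
    have h := mul_lt_mul_of_pos_right this hη0
    rw [add_mul, div_mul_cancel₀ _ hη0.ne', one_mul] at h
    exact h
  have c1 : (i3 : ℝ) * η < 1 / 2 := by linarith
  have c2 : 2 * ((i2 : ℝ) * η) < i1 * η := by linarith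
  have c3 : ((i3 : ℝ) * η) * (1 + 2 * (i1 * η) - 2 * (i2 * η)) < i1 * η - 2 * (i2 * η) := by
    have h1 : ((i3 : ℝ) * η) * (1 + 2 * (i1 * η) - 2 * (i2 * η)) ≤ (τ + η) * (1 + 2 * lam + 2 * β) := by
      apply mul_le_mul a3'.le (by linarith) _ (by linarith)
      linarith
    have h2 : η * (1 + 2 * lam + 2 * β) ≤ η * (3 + 2 * κ) := mul_le_mul_of_nonneg_left (by linarith) hη0.le
    have h3 : (τ + η) * (1 + 2 * lam + 2 * β) = τ * (1 + 2 * lam + 2 * β) + η * (1 + 2 * lam + 2 * β) := by ring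
    have h4 : η * (3 + 2 * κ) + 4 * η = ε := by rw [← hηε]; ring
    linarith
  have hmain := hC i1 i2 i3 c1 c2 c3 x y hy hne w hw1 hwx (hh.trans (by
      apply Real.rpow_le_rpow_of_exponent_le hw1
      exact mul_le_mul_of_nonneg_left a3 (by positivity))) a b hb (hbw.trans (by
      exact Real.rpow_le_rpow_of_exponent_le hw1 a2)) (hab.trans (by
      exact Real.rpow_le_rpow_of_exponent_le hw1 (by linarith)))
  rcases hmain with h | h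
  · left
    have m1 : i1 ∈ range (I1 + 1) := by
      rw [Finset.mem_range, hi1, hI1]
      have : ⌊(lam + 2 * β) / η⌋₊ ≤ ⌈(1 + 2 * κ) / η⌉₊ := by
        apply (Nat.floor_le_ceil _).trans
        apply Nat.ceil_le_ceil
        exact div_le_div_of_nonneg_right (by linarith) hη0.le
      omega
    have m2 : i2 ∈ range (I2 + 1) := by
      rw [Finset.mem_range, hi2, hI2]
      have : ⌈β / η⌉₊ ≤ ⌈κ / η⌉₊ := by
        apply Nat.ceil_le_ceil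
        exact div_le_div_of_nonneg_right (by linarith) hη0.le
      omega
    have m3 : i3 ∈ range (I3 + 1) := by
      rw [Finset.mem_range, hi3, hI3]
      have : ⌈τ / η⌉₊ ≤ ⌈1 / η⌉₊ := by
        apply Nat.ceil_le_ceil
        exact div_le_div_of_nonneg_right (by linarith) hη0.le
      omega
    have s1 : |C i1 i2 i3| ≤ ∑ i3 ∈ range (I3 + 1), |C i1 i2 i3| :=
      Finset.single_le_sum (f := fun i3 => |C i1 i2 i3|) (fun _ _ => abs_nonneg _) m3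
    have s2 : ∑ i3 ∈ range (I3 + 1), |C i1 i2 i3| ≤ ∑ i2 ∈ range (I2 + 1), ∑ i3 ∈ range (I3 + 1), |C i1 i2 i3| :=
      Finset.single_le_sum (f := fun i2 => ∑ i3 ∈ range (I3 + 1), |C i1 i2 i3|) (fun _ _ => by positivity) m2
    have s3 : ∑ i2 ∈ range (I2 + 1), ∑ i3 ∈ range (I3 + 1), |C i1 i2 i3| ≤
        ∑ i1 ∈ range (I1 + 1), ∑ i2 ∈ range (I2 + 1), ∑ i3 ∈ range (I3 + 1), |C i1 i2 i3| :=
      Finset.single_le_sum (f := fun i1 => ∑ i2 ∈ range (I2 + 1), ∑ i3 ∈ range (I3 + 1), |C i1 i2 i3|)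
        (fun _ _ => by positivity) m1
    have := le_abs_self (C i1 i2 i3)
    linarith
  · exact Or.inr h

/-- size of the exceptional denominators -/
lemma exc_bound (g : ℕ) (x y : ℤ) (w : ℝ) (hw1 : 1 ≤ w) (hwx : w ^ 2 = x) (hy : 0 < y)
    (hyw : w ^ dd g ≤ 2 * y) (j : ℕ) (hj : 1 ≤ j) (a b : ℤ) (hN : b ^ 2 * x ≠ a ^ 2)
    (hexc : a * (zz g x y ^ j).im = b * (zz g x y ^ j).re) :
    w ^ (2 * dd g * j - 2 : ℝ) ≤ 4 * ((b : ℝ) ^ 2 * |((y ^ 2 - x ^ dd g : ℤ) : ℝ)| ^ j) := by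
  have hw : 0 < w := by linarith
  have hyR : (0 : ℝ) < y := by exact_mod_cast hy
  set U := (zz g x y ^ j).re with hU
  set V := (zz g x y ^ j).im with hV
  have hp := zz_real g x y w hwx 1 (by norm_num) j
  have hm := zz_real g x y w hwx (-1) (by norm_num) j
  rw [← hU, ← hV] at hp hm
  rw [one_mul, one_mul] at hp
  have hwd : 0 < w ^ dd g := by positivity
  obtain ⟨A, hA⟩ : ∃ A : ℝ, A = y + w ^ dd g := ⟨_, rfl⟩
  obtain ⟨B, hB⟩ : ∃ B : ℝ, B = y + -1 * w ^ dd g := ⟨_, rfl⟩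
  rw [← hA] at hp
  rw [← hB] at hm
  have hA0 : 0 < A := by rw [hA]; positivity
  have hBA : |B| ≤ A - w ^ dd g := by
    rw [abs_le, hA, hB]
    constructor <;> linarith
  have hBA' : |B| ≤ A := by linarith
  -- lower bound for V
  have hV1 : w ^ dd g * (w ^ dd g) ^ (j - 1) ≤ 2 * ((V : ℝ) * w) := by
    have e1 : 2 * ((V : ℝ) * w) = A ^ j - B ^ j := by rw [← hp, ← hm]; ring
    rw [e1]
    obtain ⟨i, rfl⟩ : ∃ i, j = i + 1 := ⟨j - 1, by omega⟩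
    rw [Nat.add_sub_cancel]
    have e2 : B ^ (i + 1) ≤ A ^ i * |B| := by
      calc B ^ (i + 1) ≤ |B ^ (i + 1)| := le_abs_self _
        _ = |B| ^ i * |B| := by rw [abs_pow, pow_succ]
        _ ≤ A ^ i * |B| := mul_le_mul_of_nonneg_right (pow_le_pow_left₀ (abs_nonneg _) hBA' _) (abs_nonneg _)
    have e3 : (w ^ dd g) ^ i ≤ A ^ i := pow_le_pow_left₀ hwd.le (by rw [hA]; linarith) _
    calc w ^ dd g * (w ^ dd g) ^ i ≤ (A - |B|) * A ^ i :=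
          mul_le_mul (by linarith) e3 (by positivity) (by linarith)
      _ = A ^ (i + 1) - A ^ i * |B| := by rw [pow_succ]; ring
      _ ≤ _ := by linarith
  have hV2 : w ^ (dd g * j - 1 : ℝ) ≤ 2 * V := by
    have e1 : w ^ dd g * (w ^ dd g) ^ (j - 1) = w ^ (dd g * j - 1 : ℝ) * w := by
      rw [Real.rpow_sub hw, Real.rpow_one, div_mul_cancel₀ _ hw.ne', ← pow_succ', Nat.sub_add_cancel hj,
        ← pow_mul, ← Real.rpow_natCast]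
      push_cast; rfl
    rw [e1] at hV1
    have e2 : w ^ (dd g * j - 1 : ℝ) * w ≤ (2 * V) * w := by linarith
    exact le_of_mul_le_mul_right e2 hw
  -- the norm
  have hnorm : U * U - x * V * V = (y ^ 2 - x ^ dd g) ^ j := by
    have e1 : Zsqrtd.norm (zz g x y ^ j) = (Zsqrtd.norm (zz g x y)) ^ j := map_pow Zsqrtd.normMonoidHom _ _
    have e2 : Zsqrtd.norm (zz g x y) = y ^ 2 - x ^ dd g := by
      unfold Zsqrtd.norm zz dd
      ring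
    rw [← e2, ← e1]
    rfl
  have hid : (b : ℝ) ^ 2 * |((y ^ 2 - x ^ dd g : ℤ) : ℝ)| ^ j = (V : ℝ) ^ 2 * |((b ^ 2 * x - a ^ 2 : ℤ) : ℝ)| := by
    have e1 : b ^ 2 * (y ^ 2 - x ^ dd g) ^ j = -(V ^ 2 * (b ^ 2 * x - a ^ 2)) := by
      rw [← hnorm]
      have e2 : (a * V) * (a * V) = (b * U) * (b * U) := by rw [hexc]
      linear_combination -e2
    have e3 : |((b ^ 2 * (y ^ 2 - x ^ dd g) ^ j : ℤ) : ℝ)| = |((-(V ^ 2 * (b ^ 2 * x - a ^ 2)) : ℤ) : ℝ)| := by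
      rw [e1]
    rw [Int.cast_mul, Int.cast_neg, abs_neg, Int.cast_mul, abs_mul, abs_mul, Int.cast_pow, Int.cast_pow,
      Int.cast_pow, abs_pow, abs_pow, abs_pow, sq_abs, sq_abs] at e3
    exact e3
  have hN1 : (1 : ℝ) ≤ |((b ^ 2 * x - a ^ 2 : ℤ) : ℝ)| := by
    have : (1 : ℤ) ≤ |b ^ 2 * x - a ^ 2| := Int.one_le_abs (sub_ne_zero.mpr hN)
    rw [← Int.cast_abs]
    exact_mod_cast this
  rw [hid]
  have h1 : (w ^ (dd g * j - 1 : ℝ)) ^ 2 ≤ (2 * (V : ℝ)) ^ 2 := pow_le_pow_left₀ (by positivity) hV2 _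
  have h2 : (w ^ (dd g * j - 1 : ℝ)) ^ 2 = w ^ (2 * dd g * j - 2 : ℝ) := by
    rw [← Real.rpow_natCast, ← Real.rpow_mul hw.le]
    congr 1
    push_cast; ring
  rw [← h2]
  nlinarith [sq_nonneg (V : ℝ)]

end Pool.Agent.W273.M
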