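import Pool.Agent.W273.M.SizeT

/-!
The main theorem for fixed exponents.
-/

set_option autoImplicit false

namespace Pool.Agent.W273.M

open Polynomial Finset Pool.Agent.W273.Z

/-- counting conditions -/
lemma count_i (g n N : ℕ) (W v0 : ℝ) (hW0 : 0 ≤ W) (hWN : W * n ≤ N + v0) :
    ((n : ℝ) + 1) * (n * (W / 2) - v0 + 1 - 3 * dd g) ≤
      ((Fintype.card (Bi g n N) : ℝ) - Fintype.card (Ji g n N W v0)) * (2 * dd g) := by
  have hd0 : (0 : ℝ) < 2 * dd g := by
    have := dd_pos g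
    have : (0 : ℝ) < dd g := by exact_mod_cast this
    linarith
  rw [Fintype.card_sigma, Fintype.card_sigma]
  simp only [Fintype.card_fin]
  push_cast
  rw [← Finset.sum_sub_distrib, Finset.sum_mul]
  have h1 : ∀ l : Fin (n + 1), (l.1 : ℝ) * W - (v0 - 1 + 3 * dd g) ≤
      ((((N + n - l.1) / (2 * dd g) : ℕ) : ℝ) + 1 - (Ei g n N W v0 l.1 : ℝ)) * (2 * dd g) := by
    intro l
    have hl : (l.1 : ℝ) ≤ n := by
      have := l.2
      exact_mod_cast (by omega : l.1 ≤ n)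
    have hlW : (l.1 : ℝ) * W ≤ W * n := by
      calc (l.1 : ℝ) * W ≤ n * W := mul_le_mul_of_nonneg_right hl hW0
        _ = W * n := mul_comm _ _
    have h2 : (Ei g n N W v0 l.1 : ℝ) < ((wt g n N : ℝ) - l.1 + v0 - l.1 * W) / (2 * dd g) + 1 := by
      apply Nat.ceil_lt_add_one
      apply div_nonneg _ hd0.le
      unfold wt
      have : (0 : ℝ) ≤ dd g := by positivity
      push_cast
      linarith
    have h3 : ((N + n - l.1 : ℕ) : ℝ) + 1 ≤ ((((N + n - l.1) / (2 * dd g) : ℕ) : ℝ) + 1) * (2 * dd g) := by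
      have e1 := Nat.div_add_mod (N + n - l.1) (2 * dd g)
      have e2 : (N + n - l.1) % (2 * dd g) < 2 * dd g := Nat.mod_lt _ (by have := dd_pos g; omega)
      have e3 : (N + n - l.1) + 1 ≤ ((N + n - l.1) / (2 * dd g) + 1) * (2 * dd g) := by
        have : ((N + n - l.1) / (2 * dd g) + 1) * (2 * dd g) =
          2 * dd g * ((N + n - l.1) / (2 * dd g)) + 2 * dd g := by ring
        omega
      exact_mod_cast e3
    have h4 : ((N + n - l.1 : ℕ) : ℝ) = N + n - l.1 := by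
      rw [Nat.cast_sub (by have := l.2; omega)]
      push_cast; ring
    rw [h4] at h3
    have h5 : (Ei g n N W v0 l.1 : ℝ) * (2 * dd g) ≤ ((wt g n N : ℝ) - l.1 + v0 - l.1 * W) + 2 * dd g := by
      have := mul_le_mul_of_nonneg_right h2.le hd0.le
      rw [add_mul, div_mul_cancel₀ _ hd0.ne', one_mul] at this
      exact this
    have h6 : (wt g n N : ℝ) = N + n + dd g := by unfold wt; push_cast; ring
    rw [h6] at h5
    rw [sub_mul]
    linarith
  have h4 : ∑ l : Fin (n + 1), ((l.1 : ℝ) * W - (v0 - 1 + 3 * dd g)) =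
      ((n : ℝ) + 1) * (n * (W / 2) - v0 + 1 - 3 * dd g) := by
    rw [Fin.sum_univ_eq_sum_range (fun l => (l : ℝ) * W - (v0 - 1 + 3 * dd g))]
    have h5 : ∀ N : ℕ, ∑ l ∈ range N, ((l : ℝ) * W - (v0 - 1 + 3 * dd g)) =
        (N : ℝ) * (N - 1) / 2 * W - N * (v0 - 1 + 3 * dd g) := by
      intro N
      induction N with
      | zero => simp
      | succ N ih => rw [Finset.sum_range_succ, ih]; push_cast; ring
    rw [h5]; push_cast; ring
  rw [← h4]
  exact Finset.sum_le_sum fun l _ => h1 l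

/-- choice of the degree -/
lemma numeric_i (n : ℕ) (d θ η : ℝ) (hd : 0 ≤ d) (hθ : 0 < θ) (hη : 0 < η) (hη1 : η ≤ 1)
    (hn1 : 1 ≤ n) (hn : θ + 12 * d < η * θ * n) :
    (n + 2 - η * n) * (θ * n + 2 * d) < (n + 1) * (θ * n + 1 - 3 * d) := by
  have hnR : (1 : ℝ) ≤ n := by exact_mod_cast hn1
  have h1 : (θ + 12 * d) * n < (η * θ * n) * n := mul_lt_mul_of_pos_right hn (by linarith)
  have h2 : 7 * d * 1 ≤ 7 * d * n := mul_le_mul_of_nonneg_left hnR (by linarith)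
  have h3 : 0 ≤ 2 * d * (η * n) := by positivity
  nlinarith

/-- **main theorem for fixed exponents**, non-exceptional case -/
theorem core (g : ℕ) (W β τ : ℝ) (hβ0 : 0 ≤ β) (hτ0 : 0 ≤ τ) (hτ1 : τ < 1 / 2) (hW : 2 * β < W)
    (hcond : τ * (1 + 2 * W - 2 * β) < W - 2 * β)
    (hgood : ∀ φ : (pg g).E.K, (pg g).E.G ((W + τ) / (1 - τ)) (X - C φ)) :
    ∃ C₀ : ℝ, ∀ x y : ℤ, 0 < y → y ^ 2 ≠ x ^ dd g → ∀ w : ℝ, 1 ≤ w → w ^ 2 = x →
      |((y ^ 2 - x ^ dd g : ℤ) : ℝ)| ≤ w ^ (2 * dd g * τ) → ∀ a b : ℤ, 1 ≤ b → (b : ℝ) ≤ w ^ β →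
      |w - a / b| ≤ w ^ (-W) → w ≤ C₀ := by
  have hdN : 3 ≤ dd g := by unfold dd; omega
  have hd : (3 : ℝ) ≤ dd g := by exact_mod_cast hdN
  obtain ⟨σ, hσ⟩ : ∃ σ : ℝ, σ = 1 - τ := ⟨_, rfl⟩
  have hσ0 : 1 / 2 < σ := by linarith
  have hσ1 : σ ≤ 1 := by linarith
  obtain ⟨Wf, hWf⟩ : ∃ Wf : ℝ, Wf = (W + τ) / (1 - τ) := ⟨_, rfl⟩
  rw [← hWf] at hgood
  have hσW : σ * Wf = W + τ := by
    rw [hWf, hσ, mul_div_cancel₀]
    linarith
  have hWf0 : 0 ≤ Wf := by
    rw [hWf]; apply div_nonneg <;> linarith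
  obtain ⟨ρ, hρ⟩ : ∃ ρ : ℝ, ρ = (1 - 2 * τ) * Wf / 2 - τ - β := ⟨_, rfl⟩
  have hρ0 : 0 < ρ := by
    have h1 : 2 * σ * ρ = (W - 2 * β) - τ * (1 + 2 * W - 2 * β) := by
      rw [hρ]
      have : 2 * σ * ((1 - 2 * τ) * Wf / 2 - τ - β) = (1 - 2 * τ) * (σ * Wf) - 2 * σ * (τ + β) := by ring
      rw [this, hσW, hσ]; ring
    have h2 : 0 < 2 * σ * ρ := by rw [h1]; linarith
    exact pos_of_mul_pos_right h2 (by linarith)
  have hρW : ρ ≤ Wf / 2 := by
    rw [hρ]
    have : (1 - 2 * τ) * Wf ≤ 1 * Wf := mul_le_mul_of_nonneg_right (by linarith) hWf0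
    linarith
  have hρW2 : ρ ≤ W + 1 := by
    have h1 : Wf ≤ 2 * (W + τ) := by
      have : 1 / 2 * Wf ≤ σ * Wf := mul_le_mul_of_nonneg_right hσ0.le hWf0
      linarith
    linarith
  obtain ⟨θ, hθ⟩ : ∃ θ : ℝ, θ = ρ / 2 := ⟨_, rfl⟩
  have hθ0 : 0 < θ := by rw [hθ]; linarith
  obtain ⟨η, hη⟩ : ∃ η : ℝ, η = ρ / (4 * (W + 1)) := ⟨_, rfl⟩
  have hW1 : 0 < W + 1 := by linarith
  have hη0 : 0 < η := by rw [hη]; positivity
  have hη1 : η ≤ 1 := by
    rw [hη, div_le_one (by positivity)]; linarith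
  -- the degree
  obtain ⟨n, hn⟩ : ∃ n : ℕ, n = ⌈4 * (2 + (dd g : ℝ)) / ρ⌉₊ + ⌈(θ + 12 * (dd g : ℝ)) / (η * θ)⌉₊ + 1 := ⟨_, rfl⟩
  have hn1 : 1 ≤ n := by omega
  have hna : 2 + (dd g : ℝ) ≤ n * ρ / 4 := by
    have h1 : 4 * (2 + (dd g : ℝ)) / ρ ≤ n := by
      have h2 := Nat.le_ceil (4 * (2 + (dd g : ℝ)) / ρ)
      have h3 : ((⌈4 * (2 + (dd g : ℝ)) / ρ⌉₊ : ℕ) : ℝ) ≤ n := by
        rw [hn]; push_cast
        have : (0 : ℝ) ≤ ⌈(θ + 12 * (dd g : ℝ)) / (η * θ)⌉₊ := by positivity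
        linarith
      linarith
    rw [div_le_iff₀ hρ0] at h1
    linarith
  have hnb : θ + 12 * (dd g : ℝ) < η * θ * n := by
    have h2 := Nat.le_ceil ((θ + 12 * (dd g : ℝ)) / (η * θ))
    have h3 : ((⌈(θ + 12 * (dd g : ℝ)) / (η * θ)⌉₊ : ℕ) : ℝ) + 1 ≤ n := by
      rw [hn]; push_cast
      have : (0 : ℝ) ≤ ⌈4 * (2 + (dd g : ℝ)) / ρ⌉₊ := by positivity
      linarith
    have h4 : (θ + 12 * (dd g : ℝ)) / (η * θ) < n := by linarith
    rw [div_lt_iff₀ (by positivity)] at h4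
    linarith
  have hnum := numeric_i n (dd g) θ η (by positivity) hθ0 hη0 hη1 hn1 hnb
  have hnR : (0 : ℝ) ≤ n := by positivity
  obtain ⟨v0, hv0⟩ : ∃ v0 : ℝ, v0 = (Wf / 2 - θ) * n := ⟨_, rfl⟩
  have hv00 : 0 ≤ v0 := by rw [hv0]; apply mul_nonneg _ hnR; rw [hθ]; linarith
  obtain ⟨N, hN⟩ : ∃ N : ℕ, N = ⌈Wf * n - v0⌉₊ := ⟨_, rfl⟩
  have hNge : Wf * n - v0 ≤ N := by rw [hN]; exact Nat.le_ceil _
  have hNle : (N : ℝ) ≤ Wf * n - v0 + 1 := by
    rw [hN]
    apply (Nat.ceil_lt_add_one _).le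
    have : Wf * n - v0 = (Wf / 2 + θ) * n := by rw [hv0]; ring
    rw [this]; positivity
  obtain ⟨m0, hm0⟩ : ∃ m0 : ℕ, m0 = ⌊η * n⌋₊ := ⟨_, rfl⟩
  have hm0le : (m0 : ℝ) ≤ η * n := by rw [hm0]; exact Nat.floor_le (by positivity)
  have hm0gt : η * n < m0 + 1 := by rw [hm0]; exact Nat.lt_floor_add_one _
  have hηn : η * n ≤ n := by
    calc η * n ≤ 1 * n := mul_le_mul_of_nonneg_right hη1 hnR
      _ = n := one_mul _
  have hm0n : m0 ≤ n := by
    have : (m0 : ℝ) ≤ n := hm0le.trans hηn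
    exact_mod_cast this
  have hDpos : (0 : ℝ) < 2 * dd g := by linarith
  obtain ⟨t0, ht0⟩ : ∃ t0 : ℕ, t0 = ⌊θ * n / (2 * dd g)⌋₊ + 1 := ⟨_, rfl⟩
  have ht0gt : θ * n < 2 * dd g * t0 := by
    have h1 : θ * n / (2 * dd g) < t0 := by rw [ht0]; push_cast; exact Nat.lt_floor_add_one _
    rw [div_lt_iff₀ hDpos] at h1
    linarith
  have ht0le : (t0 : ℝ) * (2 * dd g) ≤ θ * n + 2 * dd g := by
    have h1 : (t0 : ℝ) ≤ θ * n / (2 * dd g) + 1 := by
      rw [ht0]; push_cast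
      have : (⌊θ * n / (2 * dd g)⌋₊ : ℝ) ≤ θ * n / (2 * dd g) := Nat.floor_le (by positivity)
      linarith
    have h2 := mul_le_mul_of_nonneg_right h1 hDpos.le
    rw [add_mul, div_mul_cancel₀ _ hDpos.ne', one_mul] at h2
    exact h2
  obtain ⟨v', hv'⟩ : ∃ v' : ℝ, v' = σ * v0 - τ * wt g n N := ⟨_, rfl⟩
  have hwtR : (wt g n N : ℝ) = N + n + dd g := by unfold wt; push_cast; ring
  -- the family
  obtain ⟨B0, hB0⟩ : ∃ B0 : ℕ, B0 = 1 + ∑ i, ∑ j, (AT g n N Wf v0 i j).natAbs := ⟨_, rfl⟩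
  obtain ⟨k, hk⟩ : ∃ k : ℕ, k = Fintype.card (Bi g n N) - Fintype.card (Ji g n N Wf v0) := ⟨_, rfl⟩
  have hcount := count_i g n N Wf v0 hWf0 (by linarith)
  have hθn : (n : ℝ) * (Wf / 2) - v0 + 1 - 3 * dd g = θ * n + 1 - 3 * dd g := by
    rw [hv0]; ring
  rw [hθn] at hcount
  have hLpos : (0 : ℝ) < (n + 1) * (θ * n + 1 - 3 * dd g) := by
    refine lt_of_le_of_lt ?_ hnum
    apply mul_nonneg (by linarith) (by positivity)
  have hcard : Fintype.card (Ji g n N Wf v0) ≤ Fintype.card (Bi g n N) := by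
    by_contra hlt
    push Not at hlt
    have h1 : ((Fintype.card (Bi g n N) : ℕ) : ℝ) ≤ Fintype.card (Ji g n N Wf v0) := by exact_mod_cast hlt.le
    have h2 : ((Fintype.card (Bi g n N) : ℝ) - Fintype.card (Ji g n N Wf v0)) * (2 * dd g) ≤ 0 :=
      mul_nonpos_of_nonpos_of_nonneg (by linarith) hDpos.le
    linarith
  obtain ⟨t, ht1, -, cc, ht3, ht4⟩ := siegel_many (AT g n N Wf v0) B0 (by omega)
    (fun i j => by
      have h1 : (AT g n N Wf v0 i j).natAbs ≤ B0 := by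
        rw [hB0]
        have e1 : (AT g n N Wf v0 i j).natAbs ≤ ∑ j, (AT g n N Wf v0 i j).natAbs :=
          Finset.single_le_sum (f := fun j => (AT g n N Wf v0 i j).natAbs) (fun _ _ => Nat.zero_le _)
            (Finset.mem_univ j)
        have e2 : ∑ j, (AT g n N Wf v0 i j).natAbs ≤ ∑ i, ∑ j, (AT g n N Wf v0 i j).natAbs :=
          Finset.single_le_sum (f := fun i => ∑ j, (AT g n N Wf v0 i j).natAbs) (fun _ _ => Nat.zero_le _)
            (Finset.mem_univ i)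
        omega
      rw [Int.abs_eq_natAbs]
      exact_mod_cast h1) k (by omega)
  have hker : ∀ i, ∀ j ≤ n, PowerSeries.X ^ (Ei g n N Wf v0 j) ∣ CsT g n N (fun q => (t i q : ℚ)) j :=
    fun i j hj => CsT_of_ker g n N Wf v0 (t i) (ht1 i) j hj
  have hind : ∀ lam : Fin k → ℚ, ∑ i, lam i • (fun q => (t i q : ℚ)) = 0 → lam = 0 := by
    intro lam hlam
    apply triangular_indep (fun i q => (t i q : ℚ)) cc _ _ lam
    · intro j
      have := congrFun hlam j
      rw [Finset.sum_apply] at this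
      simpa using this
    · intro i
      exact_mod_cast ht3 i
    · intro i i' hi
      exact_mod_cast ht4 i i' hi
  obtain ⟨δ, hδ0, hδ⟩ := spec_rank (PT g n N (fun i q => (t i q : ℚ)))
  obtain ⟨Emax, hEmax⟩ : ∃ Emax : ℕ, Emax = ⌈((wt g n N : ℝ) + v0) / (2 * dd g)⌉₊ := ⟨_, rfl⟩
  have hE : ∀ j ≤ n, Ei g n N Wf v0 j ≤ Emax := by
    intro j _
    rw [hEmax]
    apply Nat.ceil_le_ceil
    apply div_le_div_of_nonneg_right _ hDpos.le
    have : (0 : ℝ) ≤ j := by positivity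
    have : (0 : ℝ) ≤ j * Wf := by positivity
    linarith
  obtain ⟨B, hB1, hB⟩ := rem Emax
  obtain ⟨C1, hC1⟩ : ∃ C1 : ℝ, C1 = ∑ i : Fin k, ∑ j ∈ range (n + 1),
    (∑ q : Bi g n N, |(q.1.1.choose j : ℝ) * t i q|) * B := ⟨_, rfl⟩
  have hC10 : 0 ≤ C1 := by rw [hC1]; positivity
  have hC1le : ∀ i, ∀ j ≤ n, (∑ q : Bi g n N, |(q.1.1.choose j : ℝ) * t i q|) * B ≤ C1 := by
    intro i j hj
    rw [hC1]
    have e1 : (∑ q : Bi g n N, |(q.1.1.choose j : ℝ) * t i q|) * B ≤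
        ∑ j ∈ range (n + 1), (∑ q : Bi g n N, |(q.1.1.choose j : ℝ) * t i q|) * B :=
      Finset.single_le_sum (f := fun j => (∑ q : Bi g n N, |(q.1.1.choose j : ℝ) * t i q|) * B)
        (fun _ _ => by positivity) (Finset.mem_range.mpr (by omega))
    have e2 : ∑ j ∈ range (n + 1), (∑ q : Bi g n N, |(q.1.1.choose j : ℝ) * t i q|) * B ≤
        ∑ i : Fin k, ∑ j ∈ range (n + 1), (∑ q : Bi g n N, |(q.1.1.choose j : ℝ) * t i q|) * B :=
      Finset.single_le_sum (f := fun i => ∑ j ∈ range (n + 1), (∑ q : Bi g n N,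
        |(q.1.1.choose j : ℝ) * t i q|) * B) (fun _ _ => by positivity) (Finset.mem_univ i)
    linarith
  refine ⟨1 / δ + B + (n + 1) * 2 ^ n * C1 + 1, ?_⟩
  intro x y hy hne w hw1 hwx hh a b hb hbw hab
  by_contra hlt
  push Not at hlt
  have hw : 0 < w := by linarith
  have hδ' : 0 < 1 / δ := by positivity
  have hK : 0 ≤ (n + 1) * 2 ^ n * C1 := by positivity
  obtain ⟨T, hT⟩ : ∃ T : ℝ, T = ((y ^ 2 - x ^ dd g : ℤ) : ℝ) / w ^ (2 * dd g) := ⟨_, rfl⟩
  obtain ⟨S, hS⟩ : ∃ S : ℝ, S = (y : ℝ) / w ^ dd g := ⟨_, rfl⟩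
  have hyR : (0 : ℝ) < y := by exact_mod_cast hy
  have hS0 : 0 < S := by rw [hS]; positivity
  have hxd : (x : ℝ) ^ dd g = w ^ (2 * dd g) := by rw [← hwx, ← pow_mul]
  have hS2 : S ^ 2 = 1 + T := by
    rw [hS, hT, div_pow]
    push_cast
    rw [hxd]
    have : w ^ (2 * dd g) ≠ 0 := by positivity
    have e : (w ^ dd g) ^ 2 = w ^ (2 * dd g) := by rw [← pow_mul, mul_comm]
    rw [e]
    field_simp
    ring
  have hT0 : T ≠ 0 := by
    rw [hT]
    apply div_ne_zero _ (by positivity)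
    have : y ^ 2 - x ^ dd g ≠ 0 := sub_ne_zero.mpr hne
    exact_mod_cast this
  have hTle : |T| ≤ w ^ (-(2 * dd g * σ)) := by
    rw [hT, abs_div, abs_of_pos (by positivity : 0 < w ^ (2 * dd g)), div_le_iff₀ (by positivity)]
    calc _ ≤ w ^ (2 * dd g * τ) := hh
      _ = w ^ (-(2 * dd g * σ)) * w ^ (2 * dd g) := by
        rw [← Real.rpow_natCast, ← Real.rpow_add hw]
        congr 1
        rw [hσ]; push_cast; ring
  have hTinv : |T| ≤ w⁻¹ := by
    apply hTle.trans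
    rw [← Real.rpow_neg_one]
    apply Real.rpow_le_rpow_of_exponent_le hw1
    nlinarith
  have hTδ : |T| < δ := by
    apply lt_of_le_of_lt hTinv
    rw [inv_lt_comm₀ hw hδ0]
    rw [one_div] at hlt hδ'
    linarith
  have hTB : |T| * B ≤ 1 := by
    calc |T| * B ≤ w⁻¹ * w := mul_le_mul hTinv (by linarith) (by linarith) (by positivity)
      _ = 1 := inv_mul_cancel₀ hw.ne'
  have hT1 : |T| ≤ 1 := by
    apply hTinv.trans
    exact inv_le_one_of_one_le₀ hw1
  have happ := hB T S hT0 hTB hS0.le hS2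
  -- the real matrix
  have hmain : ∀ i, ∀ j < m0, (taylor ((a : ℝ) / b) (poly n (fun l => (rz g n N (t i) x y l : ℝ)))).coeff j = 0 := by
    intro i j hj
    refine vanish n W v' β C1 (rz g n N (t i) x y) w hw1 hC10 ?_ a b hb hbw hab j (by omega) ?_
    rotate_left
    · -- smallness
      have hj' : (j : ℝ) ≤ η * n := by
        have : (j : ℝ) ≤ m0 := by exact_mod_cast hj.le
        exact this.trans hm0le
      have hj0 : (0 : ℝ) ≤ j := by positivity
      have e1 : (j : ℝ) * (W - β) ≤ n * ρ / 4 := by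
        calc (j : ℝ) * (W - β) ≤ (η * n) * (W + 1) :=
              mul_le_mul hj' (by linarith) (by linarith) (by positivity)
          _ = n * ρ / 4 := by rw [hη]; field_simp
      have e2 : n * ρ / 2 - (1 + dd g) ≤ v' - β * n := by
        rw [hv', hwtR]
        have e3 : τ * (N + n + dd g : ℝ) ≤ τ * (Wf * n - v0 + 1 + n + dd g) :=
          mul_le_mul_of_nonneg_left (by linarith) hτ0
        have e4 : σ * v0 - τ * (Wf * n - v0 + 1 + n + dd g) - β * n = n * ρ / 2 - τ * (1 + dd g) := by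
          have e5 : σ * v0 - τ * (Wf * n - v0 + 1 + n + dd g) - β * n =
            (σ + τ) * v0 - τ * Wf * n - τ * n - β * n - τ * (1 + dd g) := by ring
          rw [e5, hσ, hv0, hθ, hρ]; ring
        have e6 : τ * (1 + (dd g : ℝ)) ≤ 1 * (1 + dd g) := mul_le_mul_of_nonneg_right (by linarith) (by positivity)
        linarith
      have h1 : w ^ (-(v' - β * n - j * (W - β))) ≤ w⁻¹ := by
        rw [← Real.rpow_neg_one]
        apply Real.rpow_le_rpow_of_exponent_le hw1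
        linarith
      calc _ ≤ (n + 1) * 2 ^ n * C1 * w⁻¹ := mul_le_mul_of_nonneg_left h1 (by positivity)
        _ < w * w⁻¹ := mul_lt_mul_of_pos_right (by linarith) (by positivity)
        _ = 1 := mul_inv_cancel₀ hw.ne'
    · -- size
      intro j hj
      rw [hasse_rz g n N (t i) x y w hw hwx j hj, ← hT, ← hS, abs_mul,
        abs_of_pos (by positivity : 0 < w ^ (wt g n N - j))]
      have h1 := csT_bound g n N (t i) j (Ei g n N Wf v0 j) Emax (hE j hj) (hker i j hj) S T B hT0 hT1 hB1 happ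
      calc _ ≤ w ^ (wt g n N - j) * ((∑ q : Bi g n N, |(q.1.1.choose j : ℝ) * t i q|) *
            (B * |T| ^ Ei g n N Wf v0 j)) := mul_le_mul_of_nonneg_left h1 (by positivity)
        _ = ((∑ q : Bi g n N, |(q.1.1.choose j : ℝ) * t i q|) * B) *
            (w ^ (wt g n N - j) * |T| ^ Ei g n N Wf v0 j) := by ring
        _ ≤ C1 * w ^ (j * W - v') := by
          apply mul_le_mul (hC1le i j hj) _ (by positivity) hC10
          have e1 : |T| ^ Ei g n N Wf v0 j ≤ (w ^ (-(2 * dd g * σ))) ^ Ei g n N Wf v0 j :=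
            pow_le_pow_left₀ (abs_nonneg _) hTle _
          have e2 : w ^ (wt g n N - j) * (w ^ (-(2 * dd g * σ))) ^ Ei g n N Wf v0 j =
              w ^ (((wt g n N - j : ℕ) : ℝ) + -(2 * dd g * σ) * Ei g n N Wf v0 j) := by
            rw [Real.rpow_add hw, Real.rpow_natCast, Real.rpow_mul hw.le, Real.rpow_natCast]
          calc _ ≤ w ^ (wt g n N - j) * (w ^ (-(2 * dd g * σ))) ^ Ei g n N Wf v0 j :=
                mul_le_mul_of_nonneg_left e1 (by positivity)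
            _ = _ := e2
            _ ≤ _ := by
              apply Real.rpow_le_rpow_of_exponent_le hw1
              have e3 : ((wt g n N : ℝ) - j + v0 - j * Wf) / (2 * dd g) ≤ Ei g n N Wf v0 j := Nat.le_ceil _
              rw [div_le_iff₀ hDpos] at e3
              have e4 : σ * ((wt g n N : ℝ) - j + v0 - j * Wf) ≤ σ * (Ei g n N Wf v0 j * (2 * dd g)) :=
                mul_le_mul_of_nonneg_left e3 (by linarith)
              have e5 : ((wt g n N - j : ℕ) : ℝ) = wt g n N - j := by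
                rw [Nat.cast_sub]
                unfold wt; omega
              rw [e5, hv']
              have e6 : σ * ((wt g n N : ℝ) - j + v0 - j * Wf) =
                  σ * (wt g n N - j) + σ * v0 - j * (σ * Wf) := by ring
              rw [e6, hσW] at e4
              have e7 : σ * ((wt g n N : ℝ) - j) = (wt g n N - j) - τ * (wt g n N - j) := by rw [hσ]; ring
              rw [e7] at e4
              linarith
  have hrankM : (Matrix.of (fun (i : Fin k) (l : Fin (n + 1)) => (rz g n N (t i) x y l : ℝ))).rank ≤ n + 1 - m0 := by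
    apply rank_le_of_vanish k n m0 ((a : ℝ) / b)
    intro i j hj
    exact hmain i j hj
  -- comparison with the specialised polynomial matrix
  have hfact : Matrix.of (fun (i : Fin k) (l : Fin (n + 1)) => (rz g n N (t i) x y l : ℝ)) =
      ((PT g n N (fun i q => (t i q : ℚ))).map (evR T)) *
        Matrix.diagonal (fun l : Fin (n + 1) => w ^ (wt g n N - l.1) * Par.mu S (wt g n N - l.1)) := by
    ext i l
    rw [Matrix.mul_diagonal, Matrix.of_apply, rz_real g n N (t i) x y w hw hwx l, ← hT, ← hS]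
    rfl
  have hmu : ∀ i, Par.mu S i ≠ 0 := by
    intro i
    unfold Par.mu
    split_ifs
    · exact one_ne_zero
    · exact hS0.ne'
  have hdet : IsUnit (Matrix.diagonal (fun l : Fin (n + 1) => w ^ (wt g n N - l.1) *
      Par.mu S (wt g n N - l.1))).det := by
    rw [Matrix.det_diagonal, isUnit_iff_ne_zero]
    apply Finset.prod_ne_zero_iff.mpr
    intro l _
    exact mul_ne_zero (by positivity) (hmu _)
  have hrankP : ((PT g n N (fun i q => (t i q : ℚ))).map (evR T)).rank ≤ n + 1 - m0 := by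
    rw [← Matrix.rank_mul_eq_left_of_isUnit_det _ _ hdet, ← hfact]
    exact hrankM
  have hrankF := (hδ T hT0 hTδ).trans hrankP
  -- conclusion
  have hfin := large_rank_i g n N Wf v0 hWf0 hgood (fun i q => (t i q : ℚ)) hker hind (n + 1 - m0)
    hrankF t0 (by
      have : v0 + θ * n = n * (Wf / 2) := by rw [hv0]; ring
      linarith)
  have hkR : ((n : ℝ) + 1) * (θ * n + 1 - 3 * dd g) ≤ k * (2 * dd g) := by
    rw [hk, Nat.cast_sub hcard]; exact hcount
  have hfinR : (k : ℝ) ≤ (n + 1 - m0) * t0 := by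
    have h1 : (k : ℝ) ≤ ((n + 1 - m0 : ℕ) : ℝ) * t0 := by exact_mod_cast hfin
    rw [Nat.cast_sub (by omega)] at h1
    push_cast at h1
    exact h1
  have hmn : (m0 : ℝ) ≤ n := by exact_mod_cast hm0n
  have h1 : (k : ℝ) * (2 * dd g) ≤ (n + 2 - η * n) * (θ * n + 2 * dd g) := by
    calc (k : ℝ) * (2 * dd g) ≤ ((n + 1 - m0) * t0) * (2 * dd g) := mul_le_mul_of_nonneg_right hfinR hDpos.le
      _ = (n + 1 - m0) * (t0 * (2 * dd g)) := by ring
      _ ≤ (n + 2 - η * n) * (θ * n + 2 * dd g) := by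
        apply mul_le_mul (by linarith) ht0le (by positivity)
        linarith
  linarith

end Pool.Agent.W273.M
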