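import Pool.Agent.W273.Z.Bad

/-!
The polynomial Pell equation attached to `X ^ d + 1`.
-/

set_option autoImplicit false

namespace Pool.Agent.W273.M

open Polynomial Finset Pool.Agent.W273.Z

lemma natDegree_add_pos (A B : ℚ[X]) (hA : 0 < A.leadingCoeff) (hB : 0 < B.leadingCoeff) :
    (A + B).natDegree = max A.natDegree B.natDegree := by
  rcases lt_trichotomy A.natDegree B.natDegree with h | h | h
  · rw [natDegree_add_eq_right_of_natDegree_lt h, max_eq_right h.le]
  · rw [← h, max_self]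
    apply le_antisymm
    · apply (natDegree_add_le _ _).trans
      rw [← h, max_self]
    · apply le_natDegree_of_ne_zero
      rw [coeff_add]
      have h1 : A.coeff A.natDegree = A.leadingCoeff := rfl
      have h2 : B.coeff A.natDegree = B.leadingCoeff := by rw [h]; rfl
      rw [h1, h2]
      exact (add_pos hA hB).ne'
  · rw [natDegree_add_eq_left_of_natDegree_lt h, max_eq_left h.le]

section PELL

variable (g : ℕ)

/-- the discriminant polynomial -/
noncomputable def Dg : ℚ[X] := C 4 * X * (X ^ (2 * g + 1) + C 1)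

lemma Dg_deg : (Dg g).natDegree = 2 * g + 2 := by
  unfold Dg
  rw [natDegree_mul, natDegree_C_mul_X (4 : ℚ) (by norm_num), natDegree_X_pow_add_C]
  · ring
  · exact mul_ne_zero (C_ne_zero.mpr (by norm_num)) X_ne_zero
  · exact (monic_X_pow_add_C (1 : ℚ) (by omega)).ne_zero

lemma Dg_lc : (Dg g).leadingCoeff = 4 := by
  unfold Dg
  rw [leadingCoeff_mul, leadingCoeff_C_mul_X, (monic_X_pow_add_C (1 : ℚ) (by omega)).leadingCoeff, mul_one]

lemma Dg_ne : Dg g ≠ 0 := by
  intro h
  have := Dg_lc g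
  rw [h, leadingCoeff_zero] at this
  norm_num at this

lemma pell_zero (c : ℚ) (P : ℚ[X]) (h : P * P = C (c * c)) : P.natDegree = 0 := by
  have h1 := congrArg natDegree h
  rw [natDegree_C] at h1
  by_cases hP : P = 0
  · rw [hP, natDegree_zero]
  · rw [natDegree_mul hP hP] at h1
    omega

lemma pell_deg (c : ℚ) (P Q : ℚ[X]) (hQ : Q ≠ 0) (h : P * P = C (c * c) + Dg g * (Q * Q)) :
    P.natDegree = Q.natDegree + g + 1 ∧ P.leadingCoeff * P.leadingCoeff =
      4 * (Q.leadingCoeff * Q.leadingCoeff) := by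
  have h1 : (Dg g * (Q * Q)).natDegree = 2 * g + 2 + (Q.natDegree + Q.natDegree) := by
    rw [natDegree_mul (Dg_ne g) (mul_ne_zero hQ hQ), natDegree_mul hQ hQ, Dg_deg]
  have h2 : (C (c * c)).natDegree < (Dg g * (Q * Q)).natDegree := by
    rw [h1, natDegree_C]; omega
  have h3 : (P * P).natDegree = 2 * g + 2 + (Q.natDegree + Q.natDegree) := by
    rw [h, natDegree_add_eq_right_of_natDegree_lt h2, h1]
  have hP : P ≠ 0 := by
    rintro rfl
    rw [mul_zero, natDegree_zero] at h3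
    omega
  refine ⟨?_, ?_⟩
  · rw [natDegree_mul hP hP] at h3
    omega
  · have h4 : (P * P).leadingCoeff = (Dg g * (Q * Q)).leadingCoeff := by
      rw [h]
      exact leadingCoeff_add_of_degree_lt (degree_lt_degree h2)
    rw [leadingCoeff_mul, leadingCoeff_mul, leadingCoeff_mul, Dg_lc] at h4
    exact h4

/-- descent -/
theorem pell (c : ℚ) (hc : c ≠ 0) (n : ℕ) : ∀ P Q : ℚ[X], P * P = C (c * c) + Dg g * (Q * Q) →
    P.natDegree = n → (2 * g + 1) ∣ n := by
  induction n using Nat.strong_induction_on with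
  | _ n ih =>
  intro P Q hPQ hn
  by_cases hQ0 : Q = 0
  · rw [hQ0, mul_zero, mul_zero, add_zero] at hPQ
    have := pell_zero c P hPQ
    rw [← hn, this]
    exact dvd_zero _
  -- choose the sign
  obtain ⟨Q, hQ, hPQ, hlc⟩ : ∃ Q : ℚ[X], Q ≠ 0 ∧ P * P = C (c * c) + Dg g * (Q * Q) ∧
      P.leadingCoeff = 2 * Q.leadingCoeff := by
    obtain ⟨-, h2⟩ := pell_deg g c P Q hQ0 hPQ
    have h3 : (P.leadingCoeff - 2 * Q.leadingCoeff) * (P.leadingCoeff + 2 * Q.leadingCoeff) = 0 := by
      linear_combination h2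
    rcases mul_eq_zero.mp h3 with h | h
    · exact ⟨Q, hQ0, hPQ, by linarith⟩
    · refine ⟨-Q, neg_ne_zero.mpr hQ0, by rw [neg_mul_neg]; exact hPQ, ?_⟩
      rw [leadingCoeff_neg]; linarith
  obtain ⟨hdeg, -⟩ := pell_deg g c P Q hQ hPQ
  have hP : P ≠ 0 := by
    intro h
    rw [h, leadingCoeff_zero] at hlc
    have := leadingCoeff_ne_zero.mpr hQ
    apply this
    linarith
  -- the unit
  set P0 : ℚ[X] := C 2 * X ^ (2 * g + 1) + C 1 with hP0
  set Q0 : ℚ[X] := X ^ g with hQ0'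
  have hunit : P0 * P0 = 1 + Dg g * (Q0 * Q0) := by
    rw [hP0, hQ0']
    unfold Dg
    have e1 : (C (4 : ℚ) : ℚ[X]) = 4 := map_ofNat C 4
    have e2 : (C (2 : ℚ) : ℚ[X]) = 2 := map_ofNat C 2
    have e3 : (C (1 : ℚ) : ℚ[X]) = 1 := map_one C
    rw [e1, e2, e3]
    ring
  have hP0deg : P0.natDegree = 2 * g + 1 := by
    rw [hP0]
    rw [natDegree_add_C, natDegree_C_mul_X_pow _ _ (by norm_num)]
  have hP0lc : P0.leadingCoeff = 2 := by
    have : P0.coeff (2 * g + 1) = 2 := by
      rw [hP0, coeff_add, coeff_C_mul_X_pow, if_pos rfl, coeff_C_ne_zero (by omega), add_zero]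
    unfold leadingCoeff
    rw [hP0deg, this]
  have hP0ne : P0 ≠ 0 := by
    intro h; rw [h, leadingCoeff_zero] at hP0lc; norm_num at hP0lc
  have hQ0deg : Q0.natDegree = g := by rw [hQ0', natDegree_X_pow]
  have hQ0lc : Q0.leadingCoeff = 1 := by rw [hQ0']; exact (monic_X_pow g).leadingCoeff
  have hQ0ne : Q0 ≠ 0 := (monic_X_pow g).ne_zero
  set R : ℚ[X] := Dg g * (Q0 * Q) with hR
  set P' : ℚ[X] := P0 * P - R with hP'
  set P'' : ℚ[X] := P0 * P + R with hP''
  set Q' : ℚ[X] := P0 * Q - Q0 * P with hQ'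
  have h1 : P' * P' = C (c * c) + Dg g * (Q' * Q') := by
    rw [hP', hQ', hR]
    linear_combination (P * P - Dg g * (Q * Q)) * hunit + hPQ
  have h2 : P' * P'' = P * P + C (c * c) * (Dg g * (Q0 * Q0)) := by
    rw [hP', hP'', hR]
    linear_combination (P * P) * hunit + (Dg g * (Q0 * Q0)) * hPQ
  -- degrees
  have hRdeg : R.natDegree = n + (2 * g + 1) := by
    rw [hR, natDegree_mul (Dg_ne g) (mul_ne_zero hQ0ne hQ), natDegree_mul hQ0ne hQ, Dg_deg, hQ0deg,
      ← hn, hdeg]
    ring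
  have hRlc : R.leadingCoeff = 4 * Q.leadingCoeff := by
    rw [hR, leadingCoeff_mul, leadingCoeff_mul, Dg_lc, hQ0lc, one_mul]
  have hPPdeg : (P0 * P).natDegree = n + (2 * g + 1) := by
    rw [natDegree_mul hP0ne hP, hP0deg, hn]; ring
  have hPPlc : (P0 * P).leadingCoeff = 4 * Q.leadingCoeff := by
    rw [leadingCoeff_mul, hP0lc, hlc]; ring
  have hP''deg : P''.natDegree = n + (2 * g + 1) := by
    apply le_antisymm
    · apply (natDegree_add_le _ _).trans
      rw [hPPdeg, hRdeg, max_self]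
    · apply le_natDegree_of_ne_zero
      rw [hP'', coeff_add]
      have e1 : (P0 * P).coeff (n + (2 * g + 1)) = 4 * Q.leadingCoeff := by
        rw [← hPPlc]; unfold leadingCoeff; rw [hPPdeg]
      have e2 : R.coeff (n + (2 * g + 1)) = 4 * Q.leadingCoeff := by
        rw [← hRlc]; unfold leadingCoeff; rw [hRdeg]
      rw [e1, e2]
      have := leadingCoeff_ne_zero.mpr hQ
      intro h
      apply this
      linarith
  have hP''ne : P'' ≠ 0 := by
    intro h; rw [h, natDegree_zero] at hP''deg; omega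
  have h3 : (P' * P'').natDegree = max (2 * n) (2 * (2 * g + 1)) := by
    rw [h2, natDegree_add_pos]
    · rw [natDegree_mul hP hP, natDegree_mul (C_ne_zero.mpr (mul_ne_zero hc hc))
        (mul_ne_zero (Dg_ne g) (mul_ne_zero hQ0ne hQ0ne)), natDegree_C,
        natDegree_mul (Dg_ne g) (mul_ne_zero hQ0ne hQ0ne), natDegree_mul hQ0ne hQ0ne, Dg_deg, hQ0deg, hn]
      congr 1 <;> ring
    · rw [leadingCoeff_mul]
      exact mul_self_pos.mpr (leadingCoeff_ne_zero.mpr hP)
    · rw [leadingCoeff_mul, leadingCoeff_C, leadingCoeff_mul, Dg_lc, leadingCoeff_mul, hQ0lc]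
      have : 0 < c * c := mul_self_pos.mpr hc
      linarith
  have hP'ne : P' ≠ 0 := by
    intro h
    rw [h, zero_mul, natDegree_zero] at h3
    have : 2 * (2 * g + 1) ≤ max (2 * n) (2 * (2 * g + 1)) := le_max_right _ _
    omega
  rw [natDegree_mul hP'ne hP''ne, hP''deg] at h3
  rcases Nat.lt_or_ge n (2 * g + 1) with hlt | hge
  · exfalso
    rw [max_eq_right (by omega)] at h3
    have h4 : P'.natDegree = 2 * g + 1 - n := by omega
    by_cases hQ'0 : Q' = 0
    · rw [hQ'0, mul_zero, mul_zero, add_zero] at h1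
      have := pell_zero c P' h1
      omega
    · have := (pell_deg g c P' Q' hQ'0 h1).1
      omega
  · rw [max_eq_left (by omega)] at h3
    have h4 : P'.natDegree = n - (2 * g + 1) := by omega
    have h5 := ih (n - (2 * g + 1)) (by omega) P' Q' h1 h4
    have h6 : n = (n - (2 * g + 1)) + (2 * g + 1) := by omega
    rw [h6]
    exact Dvd.dvd.add h5 (dvd_refl _)

/-- exceptional levels -/
theorem exc_level (k : ℕ) (h : Exc (X ^ (2 * g + 1) + C 1) k) : ∃ j : ℕ, 1 ≤ j ∧ k + 1 = (2 * g + 1) * j := by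
  obtain ⟨m, Q, c, hm, hc, hk, hQ⟩ := h
  have h1 : (C 2 * m * X - C c) * (C 2 * m * X - C c) = C (c * c) + Dg g * (Q * Q) := by
    have e1 : (C (4 : ℚ) : ℚ[X]) = 4 := map_ofNat C 4
    have e2 : (C (2 : ℚ) : ℚ[X]) = 2 := map_ofNat C 2
    unfold Dg
    rw [e1, e2, C_mul]
    linear_combination (-4 * X) * hQ
  have h2 : (C 2 * m * X - C c).natDegree = k + 1 := by
    rw [natDegree_sub_C, natDegree_mul_X (mul_ne_zero (C_ne_zero.mpr (by norm_num)) hm),
      natDegree_C_mul (by norm_num), hk]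
  obtain ⟨j, hj⟩ := pell g c hc (k + 1) _ _ h1 h2
  refine ⟨j, ?_, hj⟩
  rcases Nat.eq_zero_or_pos j with h0 | h0
  · rw [h0, mul_zero] at hj; omega
  · exact h0

end PELL

end Pool.Agent.W273.M
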