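import Pool.Agent.W273.M.Core
import Pool.Agent.W273.M.Pell

/-!
The exceptional levels: powers of `y + x^((d-1)/2) √x`.
-/

set_option autoImplicit false

namespace Pool.Agent.W273.M

open Polynomial Finset Pool.Agent.W273.Z

/-- the element `y + x^((d-1)/2) √x` -/
def zz (g : ℕ) (x y : ℤ) : ℤ√x := ⟨y, x ^ (g + 1)⟩

lemma zz_real (g : ℕ) (x y : ℤ) (w : ℝ) (hwx : w ^ 2 = x) (s : ℝ) (hs : s ^ 2 = 1) (j : ℕ) :
    (((zz g x y ^ j).re : ℤ) : ℝ) + s * ((zz g x y ^ j).im : ℝ) * w = (y + s * w ^ dd g) ^ j := by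
  have h1 : (x : ℝ) ^ (g + 1) * w = w ^ dd g := by
    rw [← hwx, ← pow_mul, ← pow_succ]
    rfl
  induction j with
  | zero => simp
  | succ j ih =>
    rw [pow_succ, pow_succ, ← ih, Zsqrtd.re_mul, Zsqrtd.im_mul]
    have h2 : (zz g x y).re = y := rfl
    have h3 : (zz g x y).im = x ^ (g + 1) := rfl
    rw [h2, h3, ← h1]
    push_cast
    have h4 : (x : ℝ) = w ^ 2 := hwx.symm
    have h5 : s * s = 1 := by rw [← pow_two]; exact hs
    rw [h4]
    linear_combination (-((zz g x y ^ j).im : ℝ) * (w ^ 2) ^ (g + 1) * w ^ 2) * h5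

lemma y_le (g : ℕ) (x y : ℤ) (hy : 0 < y) (w τ : ℝ) (hw1 : 1 ≤ w) (hwx : w ^ 2 = x) (hτ : τ ≤ 1)
    (hh : |((y ^ 2 - x ^ dd g : ℤ) : ℝ)| ≤ w ^ (2 * dd g * τ)) : (y : ℝ) ≤ 2 * w ^ dd g := by
  have hw : 0 < w := by linarith
  have hyR : (0 : ℝ) < y := by exact_mod_cast hy
  have h1 : (x : ℝ) ^ dd g = (w ^ dd g) ^ 2 := by rw [← hwx, ← pow_mul, ← pow_mul, mul_comm]
  have h2 : w ^ (2 * dd g * τ) ≤ (w ^ dd g) ^ 2 := by
    have : (w ^ dd g) ^ 2 = w ^ ((2 * dd g : ℕ) : ℝ) := by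
      rw [Real.rpow_natCast, ← pow_mul, mul_comm]
    rw [this]
    apply Real.rpow_le_rpow_of_exponent_le hw1
    push_cast
    have : (0 : ℝ) ≤ 2 * dd g := by positivity
    nlinarith
  have h3 : (y : ℝ) ^ 2 ≤ (2 * w ^ dd g) ^ 2 := by
    have h4 := (abs_le.mp (hh.trans h2)).2
    push_cast at h4
    rw [h1] at h4
    nlinarith [sq_nonneg (w ^ dd g)]
  exact le_of_sq_le_sq h3 (by positivity)
where
  le_of_sq_le_sq {a b : ℝ} (h : a ^ 2 ≤ b ^ 2) (hb : 0 ≤ b) : a ≤ b := by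
    exact abs_le_of_sq_le_sq' h hb |>.2

/-- the exceptional levels -/
theorem direct (g : ℕ) (W β τ : ℝ) (hβ0 : 0 ≤ β) (hτ0 : 0 ≤ τ) (j : ℕ) (hj : 1 ≤ j)
    (h1 : β + dd g * j - 1 < W) (h2 : β + 2 * dd g * τ * j < dd g * j) :
    ∃ C₀ : ℝ, ∀ x y : ℤ, 0 < y → ∀ w : ℝ, 1 ≤ w → w ^ 2 = x →
      |((y ^ 2 - x ^ dd g : ℤ) : ℝ)| ≤ w ^ (2 * dd g * τ) → ∀ a b : ℤ, 1 ≤ b → (b : ℝ) ≤ w ^ β →
      |w - a / b| ≤ w ^ (-W) → w ≤ C₀ ∨ a * (zz g x y ^ j).im = b * (zz g x y ^ j).re := by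
  have hdN : 3 ≤ dd g := by unfold dd; omega
  have hd : (3 : ℝ) ≤ dd g := by exact_mod_cast hdN
  have hjR : (1 : ℝ) ≤ j := by exact_mod_cast hj
  have hdj : (0 : ℝ) < dd g * j := by positivity
  have hτ1 : τ ≤ 1 := by
    by_contra h
    push Not at h
    have e1 : 1 * (dd g * j : ℝ) ≤ τ * (dd g * j) := mul_le_mul_of_nonneg_right h.le hdj.le
    linarith
  obtain ⟨s, hs⟩ : ∃ s : ℝ, s = min (W - β - dd g * j + 1) (dd g * j - β - 2 * dd g * τ * j) := ⟨_, rfl⟩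
  have hs0 : 0 < s := by rw [hs]; apply lt_min <;> linarith
  have hs1 : s ≤ W - β - dd g * j + 1 := by rw [hs]; exact min_le_left _ _
  have hs2 : s ≤ dd g * j - β - 2 * dd g * τ * j := by rw [hs]; exact min_le_right _ _
  refine ⟨(3 ^ j + 1 : ℝ) ^ (1 / s), ?_⟩
  intro x y hy w hw1 hwx hh a b hb hbw hab
  by_contra hcon
  push Not at hcon
  obtain ⟨hlt, hne⟩ := hcon
  have hw : 0 < w := by linarith
  have hyR : (0 : ℝ) < y := by exact_mod_cast hy
  have hbR : (1 : ℝ) ≤ b := by exact_mod_cast hb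
  set U := (zz g x y ^ j).re with hU
  set V := (zz g x y ^ j).im with hV
  have hp := zz_real g x y w hwx 1 (by norm_num) j
  have hm := zz_real g x y w hwx (-1) (by norm_num) j
  rw [← hU, ← hV] at hp hm
  rw [one_mul, one_mul] at hp
  have hwd : 0 < w ^ dd g := by positivity
  have hyle := y_le g x y hy w τ hw1 hwx hτ1 hh
  -- size of the conjugate
  have hconj : |(y : ℝ) + -1 * w ^ dd g| ≤ w ^ (2 * dd g * τ - dd g) := by
    have e1 : ((y : ℝ) + -1 * w ^ dd g) * (y + w ^ dd g) = ((y ^ 2 - x ^ dd g : ℤ) : ℝ) := by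
      push_cast
      have : (x : ℝ) ^ dd g = (w ^ dd g) ^ 2 := by rw [← hwx, ← pow_mul, ← pow_mul, mul_comm]
      rw [this]; ring
    have e2 : |(y : ℝ) + -1 * w ^ dd g| * w ^ dd g ≤ w ^ (2 * dd g * τ) := by
      calc _ ≤ |(y : ℝ) + -1 * w ^ dd g| * (y + w ^ dd g) :=
            mul_le_mul_of_nonneg_left (by linarith) (abs_nonneg _)
        _ = |((y ^ 2 - x ^ dd g : ℤ) : ℝ)| := by
            rw [← e1, abs_mul, abs_of_pos (by positivity : 0 < (y : ℝ) + w ^ dd g)]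
        _ ≤ _ := hh
    rw [Real.rpow_sub hw, Real.rpow_natCast, le_div_iff₀ hwd]
    exact e2
  -- size of V
  have hVle : |(V : ℝ)| * w ≤ 3 ^ j * w ^ (dd g * j : ℝ) := by
    have e1 : 2 * ((V : ℝ) * w) = (y + w ^ dd g) ^ j - (y + -1 * w ^ dd g) ^ j := by
      rw [← hp, ← hm]; ring
    have e2 : |(y + w ^ dd g) ^ j| ≤ 3 ^ j * w ^ (dd g * j : ℝ) := by
      rw [abs_of_pos (by positivity)]
      calc ((y : ℝ) + w ^ dd g) ^ j ≤ (3 * w ^ dd g) ^ j := pow_le_pow_left₀ (by positivity) (by linarith) _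
        _ = _ := by
          rw [mul_pow, ← pow_mul]
          congr 1
          rw [← Real.rpow_natCast]; push_cast; rfl
    have e3 : |((y : ℝ) + -1 * w ^ dd g) ^ j| ≤ 3 ^ j * w ^ (dd g * j : ℝ) := by
      refine le_trans ?_ e2
      rw [abs_pow, abs_pow]
      apply pow_le_pow_left₀ (abs_nonneg _)
      rw [abs_of_pos (by positivity : 0 < (y : ℝ) + w ^ dd g), abs_le]
      constructor <;> linarith
    have e4 : |2 * ((V : ℝ) * w)| ≤ 3 ^ j * w ^ (dd g * j : ℝ) + 3 ^ j * w ^ (dd g * j : ℝ) := by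
      rw [e1]
      exact (abs_sub _ _).trans (add_le_add e2 e3)
    rw [abs_mul, abs_mul, abs_of_pos hw, abs_of_pos (by norm_num : (0 : ℝ) < 2)] at e4
    linarith
  -- the integer is small
  have hint : (1 : ℝ) ≤ |((a * V - b * U : ℤ) : ℝ)| := by
    have : (1 : ℤ) ≤ |a * V - b * U| := Int.one_le_abs (sub_ne_zero.mpr hne)
    rw [← Int.cast_abs]
    exact_mod_cast this
  have hid : ((a * V - b * U : ℤ) : ℝ) = (V : ℝ) * w * (b / w * (a / b - w)) - b * (y + -1 * w ^ dd g) ^ j := by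
    rw [← hm]
    push_cast
    have : (b : ℝ) ≠ 0 := by positivity
    field_simp
    ring
  have hfin : |((a * V - b * U : ℤ) : ℝ)| ≤ (3 ^ j + 1) * w ^ (-s) := by
    rw [hid]
    have e1 : |(V : ℝ) * w * (b / w * (a / b - w))| ≤ 3 ^ j * w ^ (-s) := by
      rw [abs_mul, abs_mul, abs_mul, abs_of_pos hw, abs_of_pos (by positivity : 0 < (b : ℝ) / w)]
      have e2 : |(a : ℝ) / b - w| ≤ w ^ (-W) := by rw [abs_sub_comm]; exact hab
      calc |(V : ℝ)| * w * (b / w * |(a : ℝ) / b - w|) ≤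
            (3 ^ j * w ^ (dd g * j : ℝ)) * (w ^ β / w * w ^ (-W)) := by
              apply mul_le_mul hVle _ (by positivity) (by positivity)
              apply mul_le_mul _ e2 (abs_nonneg _) (by positivity)
              exact div_le_div_of_nonneg_right hbw hw.le
        _ = 3 ^ j * w ^ ((dd g * j : ℝ) + (β - 1) + -W) := by
              rw [Real.rpow_add hw, Real.rpow_add hw, Real.rpow_sub hw, Real.rpow_one]; ring
        _ ≤ 3 ^ j * w ^ (-s) := by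
              apply mul_le_mul_of_nonneg_left _ (by positivity)
              apply Real.rpow_le_rpow_of_exponent_le hw1
              linarith
    have e3 : |(b : ℝ) * (y + -1 * w ^ dd g) ^ j| ≤ w ^ (-s) := by
      rw [abs_mul, abs_pow, abs_of_pos (by linarith : (0 : ℝ) < b)]
      calc (b : ℝ) * |(y : ℝ) + -1 * w ^ dd g| ^ j ≤ w ^ β * (w ^ (2 * dd g * τ - dd g)) ^ j := by
            apply mul_le_mul hbw _ (by positivity) (by positivity)
            exact pow_le_pow_left₀ (abs_nonneg _) hconj _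
        _ = w ^ (β + (2 * dd g * τ - dd g) * j) := by
            rw [Real.rpow_add hw, Real.rpow_mul hw.le, Real.rpow_natCast]
        _ ≤ w ^ (-s) := by
            apply Real.rpow_le_rpow_of_exponent_le hw1
            linarith
    calc _ ≤ _ := abs_sub _ _
      _ ≤ 3 ^ j * w ^ (-s) + w ^ (-s) := add_le_add e1 e3
      _ = _ := by ring
  have hcontra : (3 ^ j + 1 : ℝ) < w ^ s := by
    have e1 : ((3 ^ j + 1 : ℝ) ^ (1 / s)) ^ s < w ^ s :=
      Real.rpow_lt_rpow (by positivity) hlt hs0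
    rw [← Real.rpow_mul (by positivity), one_div, inv_mul_cancel₀ hs0.ne', Real.rpow_one] at e1
    exact e1
  have h5 : (3 ^ j + 1 : ℝ) * w ^ (-s) < 1 := by
    calc (3 ^ j + 1 : ℝ) * w ^ (-s) < w ^ s * w ^ (-s) := mul_lt_mul_of_pos_right hcontra (by positivity)
      _ = 1 := by rw [← Real.rpow_add hw, add_neg_cancel, Real.rpow_zero]
  linarith

/-- **structure theorem for fixed exponents** -/
theorem fixed (g : ℕ) (W β τ : ℝ) (hβ0 : 0 ≤ β) (hτ0 : 0 ≤ τ) (hτ1 : τ < 1 / 2) (hW : 2 * β < W)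
    (hcond : τ * (1 + 2 * W - 2 * β) < W - 2 * β) :
    ∃ C₀ : ℝ, ∀ x y : ℤ, 0 < y → y ^ 2 ≠ x ^ dd g → ∀ w : ℝ, 1 ≤ w → w ^ 2 = x →
      |((y ^ 2 - x ^ dd g : ℤ) : ℝ)| ≤ w ^ (2 * dd g * τ) → ∀ a b : ℤ, 1 ≤ b → (b : ℝ) ≤ w ^ β →
      |w - a / b| ≤ w ^ (-W) →
      w ≤ C₀ ∨ ∃ j : ℕ, 1 ≤ j ∧ a * (zz g x y ^ j).im = b * (zz g x y ^ j).re := by
  have hσ0 : 0 < 1 - τ := by linarith
  obtain ⟨Wf, hWf⟩ : ∃ Wf : ℝ, Wf = (W + τ) / (1 - τ) := ⟨_, rfl⟩
  have hσW : (1 - τ) * Wf = W + τ := by rw [hWf, mul_div_cancel₀]; exact hσ0.ne'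
  have hWf0 : 0 ≤ Wf := by rw [hWf]; apply div_nonneg <;> linarith
  obtain ⟨k, hk⟩ : ∃ k : ℕ, k = ⌊Wf / 2⌋₊ := ⟨_, rfl⟩
  have hk1 : 2 * (k : ℝ) ≤ Wf := by
    have : (k : ℝ) ≤ Wf / 2 := by rw [hk]; exact Nat.floor_le (by positivity)
    linarith
  have hk2 : Wf < 2 * k + 2 := by
    have : Wf / 2 < k + 1 := by rw [hk]; exact Nat.lt_floor_add_one _
    linarith
  rcases (pg g).E.good_or_exc k Wf hk1 hk2 with hgood | ⟨-, hexc⟩
  · rw [hWf] at hgood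
    obtain ⟨C₀, hC⟩ := core g W β τ hβ0 hτ0 hτ1 hW hcond hgood
    exact ⟨C₀, fun x y hy hne w hw1 hwx hh a b hb hbw hab => Or.inl (hC x y hy hne w hw1 hwx hh a b hb hbw hab)⟩
  · rw [pg_FQ] at hexc
    obtain ⟨j, hj, hkj⟩ := exc_level (g + 1) k hexc
    have hkj' : (k : ℝ) + 1 = dd g * j := by
      have : k + 1 = dd g * j := hkj
      exact_mod_cast this
    have e1 : Wf / 2 < W - β := by
      have h1 : (1 - τ) * Wf < (1 - τ) * (2 * (W - β)) := by rw [hσW]; linarith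
      have h2 := lt_of_mul_lt_mul_left h1 hσ0.le
      linarith
    have e2 : β + τ < (1 - 2 * τ) * Wf / 2 := by
      have h1 : (1 - τ) * (2 * (β + τ)) < (1 - τ) * ((1 - 2 * τ) * Wf) := by
        have : (1 - τ) * ((1 - 2 * τ) * Wf) = (1 - 2 * τ) * ((1 - τ) * Wf) := by ring
        rw [this, hσW]; linarith
      have h2 := lt_of_mul_lt_mul_left h1 hσ0.le
      linarith
    have e3 : (1 - 2 * τ) * Wf ≤ (1 - 2 * τ) * (2 * (dd g * j)) :=
      mul_le_mul_of_nonneg_left (by linarith) (by linarith)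
    obtain ⟨C₀, hC⟩ := direct g W β τ hβ0 hτ0 j hj (by linarith) (by linarith)
    refine ⟨C₀, fun x y hy _ w hw1 hwx hh a b hb hbw hab => ?_⟩
    rcases hC x y hy w hw1 hwx hh a b hb hbw hab with h | h
    · exact Or.inl h
    · exact Or.inr ⟨j, hj, h⟩

end Pool.Agent.W273.M
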