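import Pool.Agent.W273.M.Asm

/-!
The theorem with logarithms.
-/

set_option autoImplicit false

namespace Pool.Agent.W273.M

open Polynomial Finset Pool.Agent.W273.Z

/-- exceptional pairs with a small denominator are harmless -/
lemma exc_small (d lam β θ : ℝ) (j : ℕ) (hd : 3 ≤ d) (hj : 1 ≤ j) (hl0 : 0 ≤ lam) (hl1 : lam ≤ 1) (hβ0 : 0 ≤ β)
    (hβ : β ≤ d - 3 / 2) (hθ : θ * (1 + 2 * lam + 2 * β) = d * lam) (h : 2 * d * j - 2 < 2 * β + 2 * θ * j) :
    False := by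
  have hjR : (1 : ℝ) ≤ j := by exact_mod_cast hj
  have hD : 0 < 1 + 2 * lam + 2 * β := by linarith
  have hθd : θ ≤ d := by
    have h1 : θ * (1 + 2 * lam + 2 * β) ≤ d * (1 + 2 * lam + 2 * β) := by
      rw [hθ]
      apply mul_le_mul_of_nonneg_left _ (by linarith)
      linarith
    exact le_of_mul_le_mul_right h1 hD
  have h1 : (d - θ) * 1 ≤ (d - θ) * j := mul_le_mul_of_nonneg_left hjR (by linarith)
  have h2 : d - 1 - β < θ := by nlinarith
  have h3 : (d - 1 - β) * (1 + 2 * lam + 2 * β) < d * lam := by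
    rw [← hθ]
    exact mul_lt_mul_of_pos_right h2 hD
  have h4 : 0 ≤ (1 - lam) * ((d - 1 - β) * (1 + 2 * β)) := by
    apply mul_nonneg (by linarith)
    apply mul_nonneg <;> linarith
  have h5 : 0 ≤ lam * ((β + 1) * (2 * d - 3 - 2 * β)) := by
    apply mul_nonneg hl0
    apply mul_nonneg <;> linarith
  nlinarith

/-- **the theorem** -/
theorem fin (g : ℕ) (κ ε : ℝ) (hκ : 0 ≤ κ) (hε : 0 < ε) :
    ∃ c : ℝ, 0 < c ∧ ∀ x y a b : ℤ, 0 < x → 0 < y → 0 < a → 0 < b → y ^ 2 ≠ x ^ dd g →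
      b ^ 2 * x ≠ a ^ 2 → (b ^ 2 * x - a ^ 2) ^ 2 ≤ x → (b : ℝ) ≤ (x : ℝ) ^ κ →
      c * (x : ℝ) ^ (dd g * Real.log ((x : ℝ) / ((b ^ 2 * x - a ^ 2 : ℤ) : ℝ) ^ 2) /
          Real.log ((x : ℝ) ^ 3 * (b : ℝ) ^ 4 / ((b ^ 2 * x - a ^ 2 : ℤ) : ℝ) ^ 4) - ε) ≤
        |((y ^ 2 - x ^ dd g : ℤ) : ℝ)| ∨
      ((x : ℝ) ^ ((2 * dd g - 3 : ℝ) / 4) < b ∧
        ∃ j : ℕ, 1 ≤ j ∧ a * (zz g x y ^ j).im = b * (zz g x y ^ j).re) := by
  have hdN : 3 ≤ dd g := by unfold dd; omega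
  have hd : (3 : ℝ) ≤ dd g := by exact_mod_cast hdN
  have hd0 : (0 : ℝ) < dd g := by linarith
  obtain ⟨C₀, hC1, hC⟩ := asm0 g (2 * κ) (ε / dd g) (by positivity) (by positivity)
  have hC0 : 0 < C₀ := by linarith
  obtain ⟨c, hc⟩ : ∃ c : ℝ, c = min (1 / 4) (1 / C₀ ^ (2 * dd g)) := ⟨_, rfl⟩
  have hc0 : 0 < c := by rw [hc]; apply lt_min <;> positivity
  have hc4 : c ≤ 1 / 4 := by rw [hc]; exact min_le_left _ _
  have hcC : c ≤ 1 / C₀ ^ (2 * dd g) := by rw [hc]; exact min_le_right _ _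
  refine ⟨c, hc0, ?_⟩
  intro x y a b hx hy ha hb hne hN hNx hbx
  obtain ⟨H, hH⟩ : ∃ H : ℝ, H = |((y ^ 2 - x ^ dd g : ℤ) : ℝ)| := ⟨_, rfl⟩
  obtain ⟨N, hNdef⟩ : ∃ N : ℝ, N = |((b ^ 2 * x - a ^ 2 : ℤ) : ℝ)| := ⟨_, rfl⟩
  have hH1 : 1 ≤ H := by
    rw [hH]
    have : (1 : ℤ) ≤ |y ^ 2 - x ^ dd g| := Int.one_le_abs (sub_ne_zero.mpr hne)
    rw [← Int.cast_abs]
    exact_mod_cast this
  have hN1 : 1 ≤ N := by
    rw [hNdef]
    have : (1 : ℤ) ≤ |b ^ 2 * x - a ^ 2| := Int.one_le_abs (sub_ne_zero.mpr hN)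
    rw [← Int.cast_abs]
    exact_mod_cast this
  have hN2 : ((b ^ 2 * x - a ^ 2 : ℤ) : ℝ) ^ 2 = N ^ 2 := by rw [hNdef, sq_abs]
  have hN4 : ((b ^ 2 * x - a ^ 2 : ℤ) : ℝ) ^ 4 = N ^ 4 := by
    have e : ∀ z : ℝ, z ^ 4 = (z ^ 2) ^ 2 := fun z => by ring
    rw [e, e, hN2]
  have hNxR : N ^ 2 ≤ x := by rw [← hN2]; exact_mod_cast hNx
  rw [hN2, hN4, ← hH]
  obtain ⟨θ, hθ⟩ : ∃ θ : ℝ, θ = dd g * Real.log ((x : ℝ) / N ^ 2) / Real.log ((x : ℝ) ^ 3 * (b : ℝ) ^ 4 / N ^ 4) :=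
    ⟨_, rfl⟩
  rw [← hθ]
  -- the trivial case
  rcases eq_or_lt_of_le (Int.add_one_le_iff.mpr hx) with hx1 | hx1
  · left
    have : (x : ℝ) = 1 := by
      have : x = 1 := by linarith
      exact_mod_cast this
    rw [this, Real.one_rpow, mul_one]
    linarith
  have hx2 : (2 : ℝ) ≤ x := by
    have : 2 ≤ x := by linarith
    exact_mod_cast this
  have hxR : (0 : ℝ) < x := by linarith
  have hyR : (0 : ℝ) < y := by exact_mod_cast hy
  have haR : (0 : ℝ) < a := by exact_mod_cast ha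
  have hbR : (1 : ℝ) ≤ b := by exact_mod_cast hb
  have hbR0 : (0 : ℝ) < b := by linarith
  obtain ⟨w, hw⟩ : ∃ w : ℝ, w = Real.sqrt x := ⟨_, rfl⟩
  have hwx : w ^ 2 = x := by rw [hw]; exact Real.sq_sqrt hxR.le
  have hw1 : 1 < w := by rw [hw]; exact Real.lt_sqrt_of_sq_lt (by linarith)
  have hw0 : 0 < w := by linarith
  have hlw : 0 < Real.log w := Real.log_pos hw1
  have hxw : ∀ e : ℝ, (x : ℝ) ^ e = w ^ (2 * e) := by
    intro e
    rw [← hwx, ← Real.rpow_natCast, ← Real.rpow_mul hw0.le]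
    norm_num
  have hlx : Real.log x = 2 * Real.log w := by
    rw [← hwx, Real.log_pow]; norm_num
  -- exponents
  obtain ⟨β, hβ⟩ : ∃ β : ℝ, β = Real.logb w b := ⟨_, rfl⟩
  obtain ⟨ν, hν⟩ : ∃ ν : ℝ, ν = Real.logb w N := ⟨_, rfl⟩
  obtain ⟨χ, hχ⟩ : ∃ χ : ℝ, χ = Real.logb w H := ⟨_, rfl⟩
  have hbw : w ^ β = b := by rw [hβ]; exact Real.rpow_logb hw0 hw1.ne' hbR0
  have hNw : w ^ ν = N := by rw [hν]; exact Real.rpow_logb hw0 hw1.ne' (by linarith)
  have hHw : w ^ χ = H := by rw [hχ]; exact Real.rpow_logb hw0 hw1.ne' (by linarith)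
  have hβ0 : 0 ≤ β := by rw [hβ]; exact Real.logb_nonneg hw1 hbR
  have hν0 : 0 ≤ ν := by rw [hν]; exact Real.logb_nonneg hw1 hN1
  have hχ0 : 0 ≤ χ := by rw [hχ]; exact Real.logb_nonneg hw1 hH1
  have hcmp : ∀ e1 e2 : ℝ, w ^ e1 ≤ w ^ e2 → e1 ≤ e2 := fun e1 e2 h => (Real.rpow_le_rpow_left_iff hw1).mp h
  have hcmp' : ∀ e1 e2 : ℝ, w ^ e1 < w ^ e2 → e1 < e2 := fun e1 e2 h => (Real.rpow_lt_rpow_left_iff hw1).mp h
  have hν1 : ν ≤ 1 := by
    apply hcmp
    rw [hNw, Real.rpow_one]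
    rw [← hwx] at hNxR
    exact (abs_le_of_sq_le_sq' hNxR hw0.le).2
  have hβκ : β ≤ 2 * κ := by
    apply hcmp
    rw [hbw, ← hxw]
    exact hbx
  obtain ⟨lam, hlam⟩ : ∃ lam : ℝ, lam = 1 - ν := ⟨_, rfl⟩
  have hl0 : 0 ≤ lam := by linarith
  have hl1 : lam ≤ 1 := by linarith
  have hlb : Real.log b = β * Real.log w := by rw [← hbw, Real.log_rpow hw0]
  have hlN : Real.log N = ν * Real.log w := by rw [← hNw, Real.log_rpow hw0]
  have hD : 0 < 1 + 2 * lam + 2 * β := by linarith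
  have hθ' : θ * (1 + 2 * lam + 2 * β) = dd g * lam := by
    have e1 : Real.log ((x : ℝ) / N ^ 2) = 2 * Real.log w * lam := by
      rw [Real.log_div hxR.ne' (by positivity), Real.log_pow, hlx, hlN, hlam]
      push_cast; ring
    have e2 : Real.log ((x : ℝ) ^ 3 * (b : ℝ) ^ 4 / N ^ 4) = 2 * Real.log w * (1 + 2 * lam + 2 * β) := by
      rw [Real.log_div (by positivity) (by positivity), Real.log_mul (by positivity) (by positivity),
        Real.log_pow, Real.log_pow, Real.log_pow, hlx, hlN, hlb, hlam]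
      push_cast; ring
    rw [hθ, e1, e2, div_mul_eq_mul_div, div_eq_iff (by positivity)]
    ring
  have hθd : θ ≤ dd g := by
    have h1 : θ * (1 + 2 * lam + 2 * β) ≤ dd g * (1 + 2 * lam + 2 * β) := by
      rw [hθ']
      apply mul_le_mul_of_nonneg_left _ (by linarith)
      linarith
    exact le_of_mul_le_mul_right h1 hD
  -- suppose the bound fails
  by_contra hcon
  push Not at hcon
  obtain ⟨hlt, hexc⟩ := hcon
  have hlt2 : H < (1 / 4) * w ^ (2 * (θ - ε)) := by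
    rw [hxw] at hlt
    refine lt_of_lt_of_le hlt ?_
    exact mul_le_mul_of_nonneg_right hc4 (by positivity)
  have hχlt : χ < 2 * (θ - ε) := by
    apply hcmp'
    rw [hHw]
    have : 0 < w ^ (2 * (θ - ε)) := by positivity
    linarith
  obtain ⟨τ, hτ⟩ : ∃ τ : ℝ, τ = χ / (2 * dd g) := ⟨_, rfl⟩
  have hτ0 : 0 ≤ τ := by rw [hτ]; positivity
  have hτχ : 2 * dd g * τ = χ := by rw [hτ]; field_simp
  have happ : |w - a / b| ≤ w ^ (-(lam + 2 * β)) := by
    have e1 : w ^ (-(lam + 2 * β)) = N / (b ^ 2 * w) := by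
      have : -(lam + 2 * β) = ν - (β * 2 + 1) := by rw [hlam]; ring
      rw [this, Real.rpow_sub hw0, hNw, Real.rpow_add hw0, Real.rpow_one, Real.rpow_mul hw0.le, hbw]
      norm_num
    have e2 : |w - a / b| * (b ^ 2 * (w + a / b)) = N := by
      have e3 : (0 : ℝ) < b ^ 2 * (w + a / b) := by positivity
      rw [← abs_of_pos e3, ← abs_mul, hNdef]
      congr 1
      push_cast
      rw [← hwx]
      field_simp
      ring
    rw [e1, le_div_iff₀ (by positivity), ← e2]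
    apply mul_le_mul_of_nonneg_left _ (abs_nonneg _)
    apply mul_le_mul_of_nonneg_left _ (by positivity)
    have : 0 < (a : ℝ) / b := by positivity
    linarith
  have hτle : τ * (1 + 2 * lam + 2 * β) ≤ lam - ε / dd g := by
    have h1 : dd g * (τ * (1 + 2 * lam + 2 * β)) ≤ dd g * (lam - ε / dd g) := by
      have h2 : dd g * τ ≤ θ - ε := by linarith
      have h3 : (dd g * τ) * (1 + 2 * lam + 2 * β) ≤ (θ - ε) * (1 + 2 * lam + 2 * β) :=
        mul_le_mul_of_nonneg_right h2 hD.le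
      have h4 : dd g * (lam - ε / dd g) = dd g * lam - ε := by field_simp
      have h5 : ε * 1 ≤ ε * (1 + 2 * lam + 2 * β) := mul_le_mul_of_nonneg_left (by linarith) hε.le
      rw [h4, ← hθ']
      linarith
    exact le_of_mul_le_mul_left h1 hd0
  have hmain := hC x y hy hne w hw1.le hwx a b (by linarith) lam β τ hβ0 hβκ hl0 hl1 hτ0
    (by rw [hτχ, hHw, hH]) hbw.ge happ hτle
  rcases hmain with hwC | ⟨j, hj, hjexc⟩
  · -- bounded
    have h1 : w ^ (2 * (θ - ε)) ≤ C₀ ^ (2 * dd g) := by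
      calc w ^ (2 * (θ - ε)) ≤ w ^ ((2 * dd g : ℕ) : ℝ) := by
            apply Real.rpow_le_rpow_of_exponent_le hw1.le
            push_cast
            linarith
        _ = w ^ (2 * dd g) := Real.rpow_natCast _ _
        _ ≤ _ := pow_le_pow_left₀ hw0.le hwC _
    have h2 : c * w ^ (2 * (θ - ε)) ≤ 1 := by
      calc c * w ^ (2 * (θ - ε)) ≤ 1 / C₀ ^ (2 * dd g) * C₀ ^ (2 * dd g) :=
            mul_le_mul hcC h1 (by positivity) (by positivity)
        _ = 1 := by rw [one_div, inv_mul_cancel₀]; positivity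
    rw [hxw] at hlt
    linarith
  · -- exceptional
    by_cases hbig : (x : ℝ) ^ ((2 * dd g - 3 : ℝ) / 4) < b
    · exact hexc hbig j hj hjexc
    push Not at hbig
    have hβd : β ≤ dd g - 3 / 2 := by
      apply hcmp
      rw [hbw]
      refine hbig.trans ?_
      rw [hxw]
      apply le_of_eq
      congr 1
      ring
    -- y is large
    have hw2d : (x : ℝ) ^ dd g = (w ^ dd g) ^ 2 := by rw [← hwx, ← pow_mul, ← pow_mul, mul_comm]
    have hyw : w ^ dd g ≤ 2 * y := by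
      have h1 : H ≤ (1 / 4) * (w ^ dd g) ^ 2 := by
        refine hlt2.le.trans ?_
        apply mul_le_mul_of_nonneg_left _ (by norm_num)
        have : (w ^ dd g) ^ 2 = w ^ ((2 * dd g : ℕ) : ℝ) := by
          rw [Real.rpow_natCast, ← pow_mul, mul_comm]
        rw [this]
        apply Real.rpow_le_rpow_of_exponent_le hw1.le
        push_cast
        linarith
      have h2 : (w ^ dd g) ^ 2 ≤ (2 * (y : ℝ)) ^ 2 := by
        have h3 := (abs_le.mp (hH ▸ h1 : |((y ^ 2 - x ^ dd g : ℤ) : ℝ)| ≤ _)).1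
        push_cast at h3
        rw [hw2d] at h3
        nlinarith [sq_nonneg (w ^ dd g)]
      exact (abs_le_of_sq_le_sq' h2 (by positivity)).2
    have hb1 := exc_bound g x y w hw1.le hwx hy hyw j hj a b hN hjexc
    rw [← hH] at hb1
    have hHj : H ^ j < (1 / 4) * w ^ (2 * θ * j) := by
      have hpos : 0 < w ^ (2 * θ) := by positivity
      have h1 : H < (1 / 4) * w ^ (2 * θ) := by
        refine lt_of_lt_of_le hlt2 ?_
        apply mul_le_mul_of_nonneg_left _ (by norm_num)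
        apply Real.rpow_le_rpow_of_exponent_le hw1.le
        linarith
      calc H ^ j < ((1 / 4) * w ^ (2 * θ)) ^ j := pow_lt_pow_left₀ h1 (by linarith) (by omega)
        _ = (1 / 4) ^ j * w ^ (2 * θ * j) := by
            rw [mul_pow, Real.rpow_mul hw0.le (2 * θ), Real.rpow_natCast]
        _ ≤ (1 / 4) * w ^ (2 * θ * j) := by
            apply mul_le_mul_of_nonneg_right _ (by positivity)
            calc ((1 : ℝ) / 4) ^ j ≤ (1 / 4) ^ 1 := pow_le_pow_of_le_one (by norm_num) (by norm_num) hj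
              _ = 1 / 4 := pow_one _
    have h3 : w ^ (2 * dd g * j - 2 : ℝ) < w ^ (2 * β + 2 * θ * j) := by
      calc w ^ (2 * dd g * j - 2 : ℝ) ≤ 4 * ((b : ℝ) ^ 2 * H ^ j) := hb1
        _ < 4 * ((b : ℝ) ^ 2 * ((1 / 4) * w ^ (2 * θ * j))) := by
            apply mul_lt_mul_of_pos_left _ (by norm_num)
            exact mul_lt_mul_of_pos_left hHj (by positivity)
        _ = (b : ℝ) ^ 2 * w ^ (2 * θ * j) := by ring
        _ = w ^ (2 * β + 2 * θ * j) := by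
            rw [Real.rpow_add hw0, mul_comm 2 β, Real.rpow_mul hw0.le β 2, hbw]
            norm_num
    exact exc_small (dd g) lam β θ j hd hj hl0 hl1 hβ0 hβd hθ' (hcmp' _ _ h3)

end Pool.Agent.W273.M
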