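import Pool.Agent.W273.Z.DropTwo
import Mathlib.RingTheory.PowerSeries.Expand

/-!
Isobaric auxiliary polynomials for the curves `y ^ 2 = x ^ d + 1`.
-/

set_option autoImplicit false

namespace Pool.Agent.W273.M

open Polynomial Finset Pool.Agent.W273.Z

/-- the exponent -/
def dd (g : ℕ) : ℕ := 2 * (g + 1) + 1

lemma dd_pos (g : ℕ) : 0 < dd g := by unfold dd; omega

/-- the curve `y² = x^d + 1` -/
noncomputable def pg (g : ℕ) : Par where
  f := X ^ (dd g) + C 1
  monic := monic_X_pow_add_C 1 (dd_pos g).ne'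
  odd := by rw [natDegree_X_pow_add_C]; exact ⟨g + 1, rfl⟩
  three := by rw [natDegree_X_pow_add_C]; unfold dd; omega
  sqf := by
    apply Polynomial.Separable.squarefree
    have h1 : (X ^ (dd g) + C (1 : ℤ)).map (Int.castRingHom ℚ) = X ^ (dd g) - C (-1 : ℚ) := by
      rw [Polynomial.map_add, Polynomial.map_pow, map_X, map_C, C_neg, sub_neg_eq_add]
      simp
    rw [h1]
    exact separable_X_pow_sub_C _ (by exact_mod_cast (dd_pos g).ne') (by norm_num)

lemma pg_d (g : ℕ) : (pg g).d = dd g := by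
  change (X ^ (dd g) + C (1 : ℤ)).natDegree = dd g
  rw [natDegree_X_pow_add_C]

lemma pg_FQ (g : ℕ) : (pg g).E.F = X ^ (2 * (g + 1) + 1) + C 1 := by
  change (X ^ (dd g) + C (1 : ℤ)).map (Int.castRingHom ℚ) = _
  rw [Polynomial.map_add, Polynomial.map_pow, map_X, map_C]
  simp [dd]

lemma pg_coeff (g i : ℕ) : (pg g).f.coeff i = if i = dd g ∨ i = 0 then 1 else 0 := by
  change (X ^ (dd g) + C (1 : ℤ)).coeff i = _
  rw [coeff_add, coeff_X_pow, coeff_C]
  have := dd_pos g
  split_ifs <;> omega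

lemma pg_gc (g m : ℕ) : (pg g).gc m = if m = 0 ∨ m = 2 * dd g then 1 else 0 := by
  unfold Par.gc
  rw [pg_coeff, pg_d]
  have := dd_pos g
  by_cases hm : Even m
  · obtain ⟨k, hk⟩ := hm
    have e : m / 2 = k := by omega
    rw [e]
    have he : Even m := ⟨k, hk⟩
    simp only [he, true_and]
    split_ifs <;> omega
  · have he : m ≠ 0 ∧ m ≠ 2 * dd g := by
      constructor
      · rintro rfl; exact hm (by decide)
      · rintro rfl; exact hm ⟨dd g, by ring⟩
    rw [if_neg (fun h => hm h.1), if_neg (by omega)]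

/-- coefficients of `1 + T` -/
def g1 : ℕ → ℤ := fun n => if n ≤ 1 then 1 else 0

/-- the square root of `1 + T` -/
noncomputable def Z1 : PowerSeries ℚ := Yps g1

lemma Z1_sq : Z1 * Z1 = 1 + PowerSeries.X := by
  unfold Z1
  rw [Yps_sq g1 rfl]
  ext n
  rw [PowerSeries.coeff_mk, map_add, PowerSeries.coeff_one, PowerSeries.coeff_X]
  unfold g1
  rcases n with _ | _ | n
  · simp
  · simp
  · simp

lemma D_ne (g : ℕ) : 2 * dd g ≠ 0 := by have := dd_pos g; omega

lemma Y_eq (g : ℕ) : (pg g).Y = PowerSeries.expand (2 * dd g) (D_ne g) Z1 := by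
  have h1 : (pg g).Y * (pg g).Y = 1 + PowerSeries.X ^ (2 * dd g) := by
    unfold Par.Y
    rw [Yps_sq _ (pg g).gc_zero]
    ext n
    rw [PowerSeries.coeff_mk, map_add, PowerSeries.coeff_one, PowerSeries.coeff_X_pow, pg_gc]
    have := dd_pos g
    split_ifs <;> first | omega | norm_num
  have h2 : PowerSeries.expand (2 * dd g) (D_ne g) Z1 * PowerSeries.expand (2 * dd g) (D_ne g) Z1 =
      1 + PowerSeries.X ^ (2 * dd g) := by
    rw [← map_mul, Z1_sq, map_add, map_one, PowerSeries.expand_X]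
  have h3 : ((pg g).Y - PowerSeries.expand (2 * dd g) (D_ne g) Z1) *
      ((pg g).Y + PowerSeries.expand (2 * dd g) (D_ne g) Z1) = 0 := by
    linear_combination h1 - h2
  rcases mul_eq_zero.mp h3 with h | h
  · exact sub_eq_zero.mp h
  · exfalso
    have h4 := congrArg (PowerSeries.coeff 0) h
    rw [map_add, PowerSeries.coeff_expand, if_pos (dvd_zero _), Nat.zero_div, map_zero] at h4
    unfold Par.Y Z1 Yps at h4
    rw [PowerSeries.coeff_mk, PowerSeries.coeff_mk, Yc_zero, Yc_zero] at h4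
    norm_num at h4

/-- unknowns -/
abbrev Bi (g n N : ℕ) : Type := Σ l : Fin (n + 1), Fin ((N + n - l.1) / (2 * dd g) + 1)

/-- embedding of the unknowns -/
def emb (g n N : ℕ) (q : Bi g n N) : Bx n N :=
  ⟨q.1, ⟨2 * dd g * q.2.1, by
    have h1 := q.1.2
    have h2 := q.2.2
    have h3 : 2 * dd g * q.2.1 ≤ 2 * dd g * ((N + n - q.1.1) / (2 * dd g)) :=
      Nat.mul_le_mul_left _ (by omega)
    have h4 := Nat.mul_div_le (N + n - q.1.1) (2 * dd g)
    omega⟩⟩

lemma emb_inj (g n N : ℕ) : Function.Injective (emb g n N) := by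
  rintro ⟨l, m⟩ ⟨l', m'⟩ h
  unfold emb at h
  simp only [Sigma.mk.injEq] at h
  obtain ⟨rfl, h2⟩ := h
  have h3 := eq_of_heq h2
  rw [Fin.mk.injEq] at h3
  have h4 : m.1 = m'.1 := Nat.eq_of_mul_eq_mul_left (by have := dd_pos g; omega) h3
  rw [Fin.ext h4]

/-- extension by zero -/
noncomputable def ext (g n N : ℕ) (u : Bi g n N → ℚ) : Bx n N → ℚ := Function.extend (emb g n N) u 0

lemma ext_emb (g n N : ℕ) (u : Bi g n N → ℚ) (q : Bi g n N) : ext g n N u (emb g n N q) = u q :=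
  (emb_inj g n N).extend_apply _ _ _

lemma ext_eq_zero (g n N : ℕ) (u : Bi g n N → ℚ) (h : ext g n N u = 0) : u = 0 := by
  funext q
  rw [← ext_emb g n N u q, h]
  rfl

/-- the power series `1` or `√(1+T)` according to parity -/
noncomputable def pwT (i : ℕ) : PowerSeries ℚ := if Even i then 1 else Z1

/-- weight of the monomials -/
def wt (g n N : ℕ) : ℕ := N + n + dd g

/-- expansions -/
noncomputable def CsT (g n N : ℕ) (u : Bi g n N → ℚ) (j : ℕ) : PowerSeries ℚ :=
  ∑ q : Bi g n N, PowerSeries.C ((q.1.1.choose j : ℚ) * u q) *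
    (PowerSeries.X ^ q.2.1 * pwT (wt g n N - q.1.1))

lemma expand_pwT (g i : ℕ) : PowerSeries.expand (2 * dd g) (D_ne g) (pwT i) = (pg g).pw i := by
  unfold pwT Par.pw
  split_ifs
  · rw [map_one]
  · rw [Y_eq]

lemma expand_CsT (g n N : ℕ) (u : Bi g n N → ℚ) (j : ℕ) :
    PowerSeries.expand (2 * dd g) (D_ne g) (CsT g n N u j) = (pg g).Cs n N (ext g n N u) j := by
  unfold CsT Par.Cs
  rw [map_sum]
  apply Fintype.sum_of_injective (emb g n N) (emb_inj g n N)
  · intro q hq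
    have : ext g n N u q = 0 := by
      unfold ext
      rw [Function.extend_apply']
      · rfl
      · rintro ⟨a, ha⟩; exact hq ⟨a, ha⟩
    rw [this, mul_zero, map_zero, zero_mul]
  · intro q
    rw [map_mul (PowerSeries.expand (2 * dd g) (D_ne g)) (PowerSeries.C _), PowerSeries.expand_C,
      map_mul (PowerSeries.expand (2 * dd g) (D_ne g)) (PowerSeries.X ^ _), map_pow,
      PowerSeries.expand_X, ← pow_mul, ext_emb, expand_pwT]
    change _ = PowerSeries.C ((q.1.1.choose j : ℚ) * u q) *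
      (PowerSeries.X ^ (2 * dd g * q.2.1) * (pg g).pw ((pg g).io n N (emb g n N q)))
    congr 2
    -- parity
    unfold Par.pw
    have h3 := (pg g).io_add n N (emb g n N q)
    change (pg g).io n N (emb g n N q) + q.1.1 + 2 * dd g * q.2.1 = N + n + (pg g).d at h3
    rw [pg_d] at h3
    have h4 : Even (wt g n N - q.1.1) ↔ Even ((pg g).io n N (emb g n N q)) := by
      unfold wt
      have h5 := q.1.2
      have h6 : N + n + dd g - q.1.1 = (pg g).io n N (emb g n N q) + 2 * (dd g * q.2.1) := by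
        have : 2 * dd g * q.2.1 = 2 * (dd g * q.2.1) := by ring
        omega
      rw [h6, Nat.even_add]
      simp
    simp only [h4]

/-- integer coefficients of `4ᵉ` times the expansion of a monomial -/
def acT (i k e : ℕ) : ℤ :=
  if Even i then (if e = k then 4 ^ e else 0) else (if k ≤ e then 4 ^ k * yy g1 (e - k) else 0)

lemma acT_eq (i k e : ℕ) :
    (acT i k e : ℚ) = 4 ^ e * PowerSeries.coeff e (PowerSeries.X ^ k * pwT i) := by
  unfold acT pwT
  split_ifs with h1 h2 h2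
  · rw [mul_one, PowerSeries.coeff_X_pow, if_pos h2]; push_cast; ring
  · rw [mul_one, PowerSeries.coeff_X_pow, if_neg h2]; simp
  · rw [PowerSeries.coeff_X_pow_mul', if_pos h2]
    unfold Z1 Yps
    rw [PowerSeries.coeff_mk]
    unfold Yc
    have h3 : (4 : ℚ) ^ e = 4 ^ k * 4 ^ (e - k) := by rw [← pow_add]; congr 1; omega
    rw [h3]
    push_cast
    field_simp
  · rw [PowerSeries.coeff_X_pow_mul', if_neg h2]; simp

/-- number of conditions in degree `j` -/
noncomputable def Ei (g n N : ℕ) (W v0 : ℝ) (j : ℕ) : ℕ :=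
  ⌈((wt g n N : ℝ) - j + v0 - j * W) / (2 * dd g)⌉₊

/-- conditions -/
abbrev Ji (g n N : ℕ) (W v0 : ℝ) : Type := Σ j : Fin (n + 1), Fin (Ei g n N W v0 j.1)

/-- the matrix of the linear system -/
noncomputable def AT (g n N : ℕ) (W v0 : ℝ) : Matrix (Ji g n N W v0) (Bi g n N) ℤ :=
  fun c q => (q.1.1.choose c.1.1 : ℤ) * acT (wt g n N - q.1.1) q.2.1 c.2.1

lemma coeff_CsT (g n N : ℕ) (u : Bi g n N → ℚ) (j e : ℕ) : 4 ^ e * PowerSeries.coeff e (CsT g n N u j) =
    ∑ q : Bi g n N, ((q.1.1.choose j : ℚ) * acT (wt g n N - q.1.1) q.2.1 e) * u q := by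
  unfold CsT
  rw [map_sum, Finset.mul_sum]
  apply Finset.sum_congr rfl
  intro q _
  rw [PowerSeries.coeff_C_mul, acT_eq]; ring

lemma CsT_of_ker (g n N : ℕ) (W v0 : ℝ) (t : Bi g n N → ℤ) (ht : (AT g n N W v0).mulVec t = 0) (j : ℕ)
    (hj : j ≤ n) : PowerSeries.X ^ (Ei g n N W v0 j) ∣ CsT g n N (fun q => (t q : ℚ)) j := by
  rw [PowerSeries.X_pow_dvd_iff]
  intro e he
  have h1 := congrFun ht ⟨⟨j, by omega⟩, ⟨e, he⟩⟩
  have h2 := coeff_CsT g n N (fun q => (t q : ℚ)) j e
  have h3 : ∑ q : Bi g n N, ((q.1.1.choose j : ℚ) * acT (wt g n N - q.1.1) q.2.1 e) * (t q : ℚ) = 0 := by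
    simp only [Matrix.mulVec, dotProduct, AT, Pi.zero_apply] at h1
    exact_mod_cast h1
  rw [h3] at h2
  exact (mul_eq_zero.mp h2).resolve_left (by positivity)

lemma CsT_add (g n N : ℕ) (u u' : Bi g n N → ℚ) (j : ℕ) :
    CsT g n N (u + u') j = CsT g n N u j + CsT g n N u' j := by
  unfold CsT
  rw [← Finset.sum_add_distrib]
  apply Finset.sum_congr rfl
  intro q _
  rw [Pi.add_apply, mul_add, map_add, add_mul]

lemma CsT_smul (g n N : ℕ) (c : ℚ) (u : Bi g n N → ℚ) (j : ℕ) :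
    CsT g n N (c • u) j = PowerSeries.C c * CsT g n N u j := by
  unfold CsT
  rw [Finset.mul_sum]
  apply Finset.sum_congr rfl
  intro q _
  rw [Pi.smul_apply, smul_eq_mul, ← mul_assoc (PowerSeries.C c), ← map_mul]
  congr 2
  ring

lemma CsT_zero (g n N : ℕ) (j : ℕ) : CsT g n N 0 j = 0 := by
  unfold CsT
  apply Finset.sum_eq_zero
  intro q _
  rw [Pi.zero_apply, mul_zero, map_zero, zero_mul]

lemma CsT_sum {ι' : Type} (g n N : ℕ) (s : Finset ι') (c : ι' → ℚ) (u : ι' → Bi g n N → ℚ) (j : ℕ) :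
    CsT g n N (∑ i ∈ s, c i • u i) j = ∑ i ∈ s, PowerSeries.C (c i) * CsT g n N (u i) j := by
  classical
  induction s using Finset.induction_on with
  | empty => rw [Finset.sum_empty, Finset.sum_empty, CsT_zero]
  | insert a s ha ih => rw [Finset.sum_insert ha, Finset.sum_insert ha, CsT_add, ih, CsT_smul]

/-- coefficient polynomials -/
noncomputable def pl (g n N : ℕ) (u : Bi g n N → ℚ) (l : Fin (n + 1)) : ℚ[X] :=
  ∑ m : Fin ((N + n - l.1) / (2 * dd g) + 1), C (u ⟨l, m⟩) * X ^ m.1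

lemma CsT_eq_pl (g n N : ℕ) (u : Bi g n N → ℚ) (j : ℕ) : CsT g n N u j =
    ∑ l : Fin (n + 1), (PowerSeries.C (l.1.choose j : ℚ) * pwT (wt g n N - l.1)) *
      (pl g n N u l : PowerSeries ℚ) := by
  unfold CsT
  rw [Fintype.sum_sigma]
  apply Finset.sum_congr rfl
  intro l _
  unfold pl
  have h1 : ((∑ m : Fin ((N + n - l.1) / (2 * dd g) + 1), C (u ⟨l, m⟩) * X ^ m.1 : ℚ[X]) : PowerSeries ℚ) =
      ∑ m : Fin ((N + n - l.1) / (2 * dd g) + 1), PowerSeries.C (u ⟨l, m⟩) * PowerSeries.X ^ m.1 := by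
    rw [← Polynomial.coeToPowerSeries.ringHom_apply, map_sum]
    apply Finset.sum_congr rfl
    intro m _
    rw [map_mul, map_pow]
    simp
  rw [h1, Finset.mul_sum]
  apply Finset.sum_congr rfl
  intro m _
  rw [map_mul]
  ring

lemma pl_add (g n N : ℕ) (u u' : Bi g n N → ℚ) (l : Fin (n + 1)) :
    pl g n N (u + u') l = pl g n N u l + pl g n N u' l := by
  unfold pl
  rw [← Finset.sum_add_distrib]
  apply Finset.sum_congr rfl
  intro q _
  rw [Pi.add_apply, C_add, add_mul]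

lemma pl_smul (g n N : ℕ) (c : ℚ) (u : Bi g n N → ℚ) (l : Fin (n + 1)) :
    pl g n N (c • u) l = C c * pl g n N u l := by
  unfold pl
  rw [Finset.mul_sum]
  apply Finset.sum_congr rfl
  intro q _
  rw [Pi.smul_apply, smul_eq_mul, C_mul, mul_assoc]

lemma pl_zero (g n N : ℕ) (l : Fin (n + 1)) : pl g n N 0 l = 0 := by
  unfold pl
  apply Finset.sum_eq_zero
  intro q _
  rw [Pi.zero_apply, C_0, zero_mul]

lemma pl_sum {ι' : Type} (g n N : ℕ) (s : Finset ι') (c : ι' → ℚ) (u : ι' → Bi g n N → ℚ) (l : Fin (n + 1)) :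
    pl g n N (∑ i ∈ s, c i • u i) l = ∑ i ∈ s, C (c i) * pl g n N (u i) l := by
  classical
  induction s using Finset.induction_on with
  | empty => rw [Finset.sum_empty, Finset.sum_empty, pl_zero]
  | insert a s ha ih => rw [Finset.sum_insert ha, Finset.sum_insert ha, pl_add, ih, pl_smul]

end Pool.Agent.W273.M
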