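import Pool.Agent.W273.M.Iso

/-!
The filtration argument for isobaric auxiliary polynomials.
-/

set_option autoImplicit false

namespace Pool.Agent.W273.M

open Polynomial Finset Pool.Agent.W273.Z

/-- coefficient matrix -/
noncomputable def PT (g n N : ℕ) {k : ℕ} (u : Fin k → Bi g n N → ℚ) : Matrix (Fin k) (Fin (n + 1)) ℚ[X] :=
  fun i l => pl g n N (u i) l

/-- the filtration -/
noncomputable def FT (g n N : ℕ) (W v0 : ℝ) {k : ℕ} (u : Fin k → Bi g n N → ℚ) (t : ℕ) :
    Submodule ℚ (Fin k → ℚ) where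
  carrier := {lam | ∀ j ≤ n, PowerSeries.X ^ (Ei g n N W v0 j + t) ∣ CsT g n N (∑ i, lam i • u i) j}
  add_mem' := by
    intro a b ha hb j hj
    have h1 : ∑ i, (a + b) i • u i = ∑ i, a i • u i + ∑ i, b i • u i := by
      rw [← Finset.sum_add_distrib]
      exact Finset.sum_congr rfl fun i _ => by rw [Pi.add_apply, add_smul]
    rw [h1, CsT_add]
    exact dvd_add (ha j hj) (hb j hj)
  zero_mem' := by
    intro j _
    have h1 : ∑ i, (0 : Fin k → ℚ) i • u i = 0 := by simp
    rw [h1, CsT_zero]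
    exact dvd_zero _
  smul_mem' := by
    intro c a ha j hj
    have h1 : ∑ i, (c • a) i • u i = c • ∑ i, a i • u i := by
      rw [Finset.smul_sum]
      exact Finset.sum_congr rfl fun i _ => by rw [Pi.smul_apply, smul_eq_mul, mul_smul]
    rw [h1, CsT_smul]
    exact Dvd.dvd.mul_left (ha j hj) _

/-- removing a common power of `X` -/
lemma exists_nu {m : ℕ} (μ : Fin m → ℚ[X]) (hμ : ∃ i, μ i ≠ 0) :
    ∃ (v : ℕ) (ν : Fin m → ℚ[X]), (∀ i, μ i = X ^ v * ν i) ∧ ∃ i, (ν i).coeff 0 ≠ 0 := by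
  classical
  obtain ⟨i1, hi1⟩ := hμ
  have hne : (Finset.univ.filter (fun i => μ i ≠ 0)).Nonempty := ⟨i1, by simp [hi1]⟩
  obtain ⟨i0, hi0, hmin⟩ := Finset.exists_min_image (Finset.univ.filter (fun i => μ i ≠ 0))
    (fun i => (μ i).natTrailingDegree) hne
  rw [Finset.mem_filter] at hi0
  have hdvd : ∀ i, X ^ (μ i0).natTrailingDegree ∣ μ i := by
    intro i
    by_cases h0 : μ i = 0
    · rw [h0]; exact dvd_zero _
    · rw [X_pow_dvd_iff]
      intro d hd
      apply coeff_eq_zero_of_lt_natTrailingDegree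
      exact lt_of_lt_of_le hd (hmin i (by simp [h0]))
  choose ν hν using hdvd
  refine ⟨(μ i0).natTrailingDegree, ν, hν, i0, ?_⟩
  have h1 : (μ i0).coeff (μ i0).natTrailingDegree ≠ 0 := by
    have := trailingCoeff_nonzero_iff_nonzero.mpr hi0.2
    exact this
  have h2 := hν i0
  intro h3
  apply h1
  have h4 : (μ i0).coeff (μ i0).natTrailingDegree = (X ^ (μ i0).natTrailingDegree * ν i0).coeff
      (μ i0).natTrailingDegree := by rw [← h2]
  rw [h4, coeff_X_pow_mul', if_pos le_rfl, Nat.sub_self, h3]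

/-- one step -/
lemma stepT (g n N : ℕ) (r : ℕ) (Q : Fin (r + 1) → Bi g n N → ℚ) (e : ℕ → ℕ)
    (hQ : ∀ i, ∀ j ≤ n, PowerSeries.X ^ (e j) ∣ CsT g n N (Q i) j)
    (ν : Fin (r + 1) → ℚ[X]) (hν : ∃ i, (ν i).coeff 0 ≠ 0)
    (hrel : ∀ l, ∑ i, ν i * pl g n N (Q i) l = 0) :
    ∃ c : Fin (r + 1) → ℚ, c ≠ 0 ∧ ∀ j ≤ n, PowerSeries.X ^ (e j + 1) ∣ CsT g n N (∑ i, c i • Q i) j := by
  refine ⟨fun i => (ν i).coeff 0, ?_, ?_⟩
  · obtain ⟨i, hi⟩ := hν
    intro h
    exact hi (congrFun h i)
  · intro j hj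
    have h1 : ∑ i, (ν i : PowerSeries ℚ) * CsT g n N (Q i) j = 0 := by
      simp only [CsT_eq_pl, Finset.mul_sum]
      rw [Finset.sum_comm]
      apply Finset.sum_eq_zero
      intro l _
      have h2 : ∑ i, (ν i : PowerSeries ℚ) * (pl g n N (Q i) l : PowerSeries ℚ) = 0 := by
        have h3 := congrArg (fun P : ℚ[X] => (P : PowerSeries ℚ)) (hrel l)
        simp only [← Polynomial.coeToPowerSeries.ringHom_apply] at h3 ⊢
        rw [map_sum, map_zero] at h3
        rw [← h3]
        exact Finset.sum_congr rfl fun i _ => (map_mul _ _ _).symm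
      calc _ = (PowerSeries.C (l.1.choose j : ℚ) * pwT (wt g n N - l.1)) *
            ∑ i, (ν i : PowerSeries ℚ) * (pl g n N (Q i) l : PowerSeries ℚ) := by
              rw [Finset.mul_sum]
              exact Finset.sum_congr rfl fun i _ => by ring
        _ = 0 := by rw [h2, mul_zero]
    have h2 : CsT g n N (∑ i, (ν i).coeff 0 • Q i) j =
        ∑ i, (PowerSeries.C ((ν i).coeff 0) - (ν i : PowerSeries ℚ)) * CsT g n N (Q i) j := by
      rw [CsT_sum]
      simp only [sub_mul]
      rw [Finset.sum_sub_distrib, h1, sub_zero]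
    rw [h2]
    apply Finset.dvd_sum
    intro i _
    have h3 : (PowerSeries.X : PowerSeries ℚ) ∣ PowerSeries.C ((ν i).coeff 0) - (ν i : PowerSeries ℚ) := by
      rw [PowerSeries.X_dvd_iff]
      simp
    have h4 := mul_dvd_mul h3 (hQ i j hj)
    rwa [← pow_succ'] at h4

/-- **rank bound** -/
theorem large_rank_i (g n N : ℕ) (W v0 : ℝ) (hW0 : 0 ≤ W)
    (hgood : ∀ φ : (pg g).E.K, (pg g).E.G W (X - C φ)) {k : ℕ} (u : Fin k → Bi g n N → ℚ)
    (hu : ∀ i, ∀ j ≤ n, PowerSeries.X ^ (Ei g n N W v0 j) ∣ CsT g n N (u i) j)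
    (hind : ∀ lam : Fin k → ℚ, ∑ i, lam i • u i = 0 → lam = 0) (r : ℕ)
    (hr : ((PT g n N u).map (algebraMap ℚ[X] (RatFunc ℚ))).rank ≤ r) (t0 : ℕ)
    (ht0 : n * (W / 2) < v0 + 2 * dd g * t0) : k ≤ r * t0 := by
  have hmain := drop_all (V := Fin k → ℚ) (FT g n N W v0 u) ?_ ?_ r ?_ t0 ?_
  · rwa [Module.finrank_fin_fun] at hmain
  · -- start
    rw [eq_top_iff]
    intro lam _ j hj
    rw [add_zero, CsT_sum]
    apply Finset.dvd_sum
    intro i _
    exact Dvd.dvd.mul_left (hu i j hj) _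
  · intro t lam hlam j hj
    exact (pow_dvd_pow _ (by omega)).trans (hlam j hj)
  · -- the step
    intro t v hv
    set Q : Fin (r + 1) → Bi g n N → ℚ := fun i => ∑ m, v i m • u m with hQ
    set Λ : Matrix (Fin (r + 1)) (Fin k) (RatFunc ℚ) := fun i m => algebraMap ℚ[X] (RatFunc ℚ) (C (v i m)) with hΛ
    have hN : (Λ * (PT g n N u).map (algebraMap ℚ[X] (RatFunc ℚ))).rank ≤ r :=
      (Matrix.rank_mul_le_right _ _).trans hr
    have hNe : ∀ i (l : Fin (n + 1)), (Λ * (PT g n N u).map (algebraMap ℚ[X] (RatFunc ℚ))) i l =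
        algebraMap ℚ[X] (RatFunc ℚ) (pl g n N (Q i) l) := by
      intro i l
      rw [Matrix.mul_apply, hQ]
      simp only
      rw [pl_sum, map_sum]
      apply Finset.sum_congr rfl
      intro m _
      rw [map_mul]
      rfl
    have hnl : ¬ LinearIndependent (RatFunc ℚ) (Λ * (PT g n N u).map (algebraMap ℚ[X] (RatFunc ℚ))).row := by
      intro h
      have := h.rank_matrix
      rw [Fintype.card_fin] at this
      omega
    rw [← LinearIndependent.iff_fractionRing ℚ[X] (RatFunc ℚ), Fintype.not_linearIndependent_iff] at hnl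
    obtain ⟨μ, hμ1, i1, hi1⟩ := hnl
    obtain ⟨vv, ν, hν1, hν2⟩ := exists_nu μ ⟨i1, hi1⟩
    have hrel : ∀ l, ∑ i, ν i * pl g n N (Q i) l = 0 := by
      intro l
      have h1 := congrFun hμ1 l
      rw [Finset.sum_apply, Pi.zero_apply] at h1
      have h2 : algebraMap ℚ[X] (RatFunc ℚ) (X ^ vv * ∑ i, ν i * pl g n N (Q i) l) = 0 := by
        rw [← h1, Finset.mul_sum, map_sum]
        apply Finset.sum_congr rfl
        intro i _
        rw [Pi.smul_apply, Algebra.smul_def]
        rw [hν1 i, ← mul_assoc, map_mul]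
        congr 1
        exact (hNe i l).symm
      have h3 := (map_eq_zero_iff _ (IsFractionRing.injective ℚ[X] (RatFunc ℚ))).mp h2
      exact (mul_eq_zero.mp h3).resolve_left (pow_ne_zero _ X_ne_zero)
    obtain ⟨c, hc, hc2⟩ := stepT g n N r Q (fun j => Ei g n N W v0 j + t) (fun i j hj => hv i j hj) ν hν2 hrel
    refine ⟨c, hc, ?_⟩
    intro j hj
    have h3 : ∑ m, (∑ i, c i • v i) m • u m = ∑ i, c i • Q i := by
      rw [hQ]
      simp only [Finset.sum_apply, Pi.smul_apply, smul_eq_mul, Finset.sum_smul, Finset.smul_sum]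
      rw [Finset.sum_comm]
      apply Finset.sum_congr rfl
      intro i _
      apply Finset.sum_congr rfl
      intro m _
      rw [mul_smul]
    rw [h3, ← add_assoc]
    exact hc2 j hj
  · -- the end
    rw [eq_bot_iff]
    intro lam hlam
    rw [Submodule.mem_bot]
    apply hind
    by_contra hne
    have hP : (pg g).PQ n N (ext g n N (∑ i, lam i • u i)) ≠ 0 := fun h =>
      hne (ext_eq_zero g n N _ ((pg g).PQ_inj n N _ h))
    have hd0 : (0 : ℝ) < 2 * dd g := by
      have := dd_pos g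
      have : (0 : ℝ) < dd g := by exact_mod_cast this
      linarith
    have := (pg g).E.zero_estimate W hW0 hgood _ hP n ((pg g).natDegree_PQ n N _) ((pg g).PQ_int n N _)
      (v0 + 2 * dd g * t0) (fun j e he => (pg g).order_of_ker n N W (v0 + 2 * dd g * t0)
        (ext g n N (∑ i, lam i • u i)) (by
          intro j hj e he
          rw [← expand_CsT, PowerSeries.coeff_expand]
          split_ifs with hdv
          · obtain ⟨e', rfl⟩ := hdv
            rw [Nat.mul_div_cancel_left _ (by have := dd_pos g; omega)]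
            have h1 := hlam j hj
            rw [PowerSeries.X_pow_dvd_iff] at h1
            apply h1
            unfold En at he
            rw [Nat.lt_ceil, pg_d] at he
            have h2 : ((wt g n N : ℝ) - j + v0 - j * W) / (2 * dd g) ≤ Ei g n N W v0 j := Nat.le_ceil _
            rw [div_le_iff₀ hd0] at h2
            unfold wt at h2
            push_cast at he h2
            have h3 : (e' : ℝ) * (2 * dd g) < ((Ei g n N W v0 j : ℝ) + t0) * (2 * dd g) := by
              nlinarith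
            have h4 := lt_of_mul_lt_mul_right h3 hd0.le
            exact_mod_cast h4
          · rfl) j e he)
    linarith

end Pool.Agent.W273.M
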