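import Pool.Agent.W273.Z.Lin

/-!
Specialising the variable of a polynomial matrix at a small nonzero real number.
-/

set_option autoImplicit false

namespace Pool.Agent.W273.M

open Polynomial Finset Pool.Agent.W273.Z

/-- evaluation of rational polynomials at real numbers -/
noncomputable def evR (t : ℝ) : ℚ[X] →+* ℝ := eval₂RingHom (algebraMap ℚ ℝ) t

lemma small_nonroot (D : ℚ[X]) (hD : D ≠ 0) : ∃ δ : ℝ, 0 < δ ∧ ∀ t : ℝ, t ≠ 0 → |t| < δ → evR t D ≠ 0 := by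
  have hD' : D.map (algebraMap ℚ ℝ) ≠ 0 := (Polynomial.map_ne_zero_iff (algebraMap ℚ ℝ).injective).mpr hD
  have hfin : ({t : ℝ | (D.map (algebraMap ℚ ℝ)).eval t = 0} \ {0}).Finite := by
    apply Set.Finite.subset (s := {t : ℝ | (D.map (algebraMap ℚ ℝ)).eval t = 0}) _ Set.diff_subset
    exact Polynomial.finite_setOf_isRoot hD'
  have hopen : IsOpen ({t : ℝ | (D.map (algebraMap ℚ ℝ)).eval t = 0} \ {0})ᶜ := hfin.isClosed.isOpen_compl
  obtain ⟨δ, hδ, hball⟩ := Metric.isOpen_iff.mp hopen 0 (by simp)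
  refine ⟨δ, hδ, fun t ht0 ht h => ?_⟩
  have h1 := hball (show t ∈ Metric.ball 0 δ by rw [Metric.mem_ball, dist_zero_right, Real.norm_eq_abs]; exact ht)
  apply h1
  refine ⟨?_, ht0⟩
  change (D.map (algebraMap ℚ ℝ)).eval t = 0
  rw [eval_map]
  exact h

/-- the rank does not drop -/
theorem spec_rank {k n : ℕ} (P : Matrix (Fin k) (Fin (n + 1)) ℚ[X]) :
    ∃ δ : ℝ, 0 < δ ∧ ∀ t : ℝ, t ≠ 0 → |t| < δ →
      (P.map (algebraMap ℚ[X] (RatFunc ℚ))).rank ≤ (P.map (evR t)).rank := by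
  obtain ⟨f, h, hfh⟩ := exists_minor (P.map (algebraMap ℚ[X] (RatFunc ℚ))) _ le_rfl
  have h1 : ((P.map (algebraMap ℚ[X] (RatFunc ℚ))).submatrix f h).det =
      algebraMap ℚ[X] (RatFunc ℚ) ((P.submatrix f h).det) := by
    rw [RingHom.map_det]
    rfl
  have h2 : (P.submatrix f h).det ≠ 0 := by
    intro h0
    rw [h1, h0, map_zero] at hfh
    exact hfh rfl
  obtain ⟨δ, hδ, hδ2⟩ := small_nonroot _ h2
  refine ⟨δ, hδ, fun t ht0 ht => ?_⟩
  apply rank_ge_of_minor _ _ f h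
  have h3 := hδ2 t ht0 ht
  rw [RingHom.map_det] at h3
  exact h3

end Pool.Agent.W273.M
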