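import Pool.Agent.W273.M.Rank
import Pool.Agent.W273.M.Spec
import Pool.Agent.W273.Z.Vanish

/-!
Real estimates for isobaric auxiliary polynomials.
-/

set_option autoImplicit false

namespace Pool.Agent.W273.M

open Polynomial Finset Pool.Agent.W273.Z

/-- coefficients of `1 - T` -/
def g1' : ℕ → ℤ := fun n => if n = 0 then 1 else if n = 1 then -1 else 0

lemma Yc_g1' (n : ℕ) : Yc g1' n = (-1) ^ n * Yc g1 n := by
  have h1 : Yps g1' * Yps g1' = 1 - PowerSeries.X := by
    rw [Yps_sq g1' rfl]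
    ext n
    rw [PowerSeries.coeff_mk, map_sub, PowerSeries.coeff_one, PowerSeries.coeff_X]
    unfold g1'
    rcases n with _ | _ | n
    · simp
    · simp
    · simp
  have h2 : PowerSeries.rescale (-1 : ℚ) Z1 * PowerSeries.rescale (-1 : ℚ) Z1 = 1 - PowerSeries.X := by
    rw [← map_mul, Z1_sq, map_add, map_one, PowerSeries.rescale_X]
    simp [sub_eq_add_neg]
  have h3 : (Yps g1' - PowerSeries.rescale (-1 : ℚ) Z1) * (Yps g1' + PowerSeries.rescale (-1 : ℚ) Z1) = 0 := by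
    linear_combination h1 - h2
  have h4 : Yps g1' = PowerSeries.rescale (-1 : ℚ) Z1 := by
    rcases mul_eq_zero.mp h3 with h | h
    · exact sub_eq_zero.mp h
    · exfalso
      have h5 := congrArg (PowerSeries.coeff 0) h
      rw [map_add, PowerSeries.coeff_rescale, map_zero] at h5
      unfold Z1 Yps at h5
      rw [PowerSeries.coeff_mk, PowerSeries.coeff_mk, Yc_zero, Yc_zero] at h5
      norm_num at h5
  have h5 := congrArg (PowerSeries.coeff n) h4
  rw [PowerSeries.coeff_rescale] at h5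
  unfold Z1 Yps at h5
  rw [PowerSeries.coeff_mk, PowerSeries.coeff_mk] at h5
  exact h5

/-- truncations of the square root -/
lemma rem (E : ℕ) : ∃ B : ℝ, 1 ≤ B ∧ ∀ T S : ℝ, T ≠ 0 → |T| * B ≤ 1 → 0 ≤ S → S ^ 2 = 1 + T →
    ∀ M ≤ E, |S - ∑ m ∈ range M, (Yc g1 m : ℝ) * T ^ m| ≤ B * |T| ^ M := by
  obtain ⟨C, e, hC, h⟩ := approx E 1
  refine ⟨C, by exact_mod_cast hC, ?_⟩
  intro T S hT hTC hS hS2 M hM
  rcases lt_or_gt_of_ne hT with hneg | hpos
  · have h1 := h g1' 1 le_rfl (by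
        intro i; unfold g1'; split_ifs <;> norm_num) rfl (by
        intro i hi; unfold g1'; rw [if_neg (by omega), if_neg (by omega)]) |T| S (abs_pos.mpr hT)
        (by push_cast; rw [one_pow, mul_one]; exact hTC) hS (by
          rw [Finset.sum_range_succ, Finset.sum_range_one, hS2, abs_of_neg hneg]
          unfold g1'
          simp) M hM
    have h2 : ∑ m ∈ range M, (Yc g1' m : ℝ) * |T| ^ m = ∑ m ∈ range M, (Yc g1 m : ℝ) * T ^ m := by
      apply Finset.sum_congr rfl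
      intro m _
      rw [Yc_g1', abs_of_neg hneg]
      push_cast
      rw [neg_pow T]
      have : ((-1 : ℝ) ^ m) * ((-1) ^ m) = 1 := by
        rw [← mul_pow]; norm_num
      linear_combination (Yc g1 m : ℝ) * T ^ m * this
    rw [h2] at h1
    push_cast at h1
    rw [one_pow, mul_one] at h1
    exact h1
  · have h1 := h g1 1 le_rfl (by
        intro i; unfold g1; split_ifs <;> norm_num) rfl (by
        intro i hi; unfold g1; rw [if_neg (by omega)]) |T| S (abs_pos.mpr hT)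
        (by push_cast; rw [one_pow, mul_one]; exact hTC) hS (by
          rw [Finset.sum_range_succ, Finset.sum_range_one, hS2, abs_of_pos hpos]
          unfold g1
          simp) M hM
    rw [abs_of_pos hpos] at h1 ⊢
    push_cast at h1
    rw [one_pow, mul_one] at h1
    exact h1

/-- remainder estimate for a monomial -/
lemma mono_remT (S T B : ℝ) (hT : T ≠ 0) (hT1 : |T| ≤ 1) (hB : 1 ≤ B) (Emax : ℕ)
    (happ : ∀ M ≤ Emax, |S - ∑ m ∈ range M, (Yc g1 m : ℝ) * T ^ m| ≤ B * |T| ^ M)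
    (i k E : ℕ) (hE : E ≤ Emax) :
    |T ^ k * Par.mu S i - ∑ e ∈ range E, ((PowerSeries.coeff e (PowerSeries.X ^ k * pwT i) : ℚ) : ℝ) * T ^ e| ≤
      B * |T| ^ E := by
  have hT0 : 0 < |T| := abs_pos.mpr hT
  have hsE : 0 < |T| ^ E := by positivity
  unfold Par.mu pwT
  split_ifs with hev
  · -- even
    rw [mul_one]
    have h1 : ∀ e ∈ range E, ((PowerSeries.coeff e (PowerSeries.X ^ k * (1 : PowerSeries ℚ)) : ℚ) : ℝ) * T ^ e =
        if e = k then T ^ k else 0 := by
      intro e _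
      rw [mul_one, PowerSeries.coeff_X_pow]
      split_ifs with hek
      · rw [hek]; push_cast; ring
      · push_cast; ring
    rw [Finset.sum_congr rfl h1, Finset.sum_ite_eq']
    split_ifs with hk
    · rw [sub_self, abs_zero]; positivity
    · rw [Finset.mem_range, not_lt] at hk
      rw [sub_zero, abs_pow]
      calc |T| ^ k ≤ |T| ^ E := pow_le_pow_of_le_one hT0.le hT1 hk
        _ ≤ B * |T| ^ E := by nlinarith
  · -- odd
    have h1 : ∑ e ∈ range E, ((PowerSeries.coeff e (PowerSeries.X ^ k * Z1) : ℚ) : ℝ) * T ^ e =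
        T ^ k * ∑ m ∈ range (E - k), (Yc g1 m : ℝ) * T ^ m := by
      rcases Nat.lt_or_ge E k with hk | hk
      · have h2 : E - k = 0 := by omega
        rw [h2, Finset.sum_range_zero, mul_zero]
        apply Finset.sum_eq_zero
        intro e he
        rw [Finset.mem_range] at he
        rw [PowerSeries.coeff_X_pow_mul', if_neg (by omega)]
        push_cast; ring
      · obtain ⟨M, rfl⟩ : ∃ M, E = k + M := ⟨E - k, by omega⟩
        rw [Finset.sum_range_add]
        have h2 : ∑ e ∈ range k, ((PowerSeries.coeff e (PowerSeries.X ^ k * Z1) : ℚ) : ℝ) * T ^ e = 0 := by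
          apply Finset.sum_eq_zero
          intro e he
          rw [Finset.mem_range] at he
          rw [PowerSeries.coeff_X_pow_mul', if_neg (by omega)]
          push_cast; ring
        rw [h2, zero_add, Nat.add_sub_cancel_left, Finset.mul_sum]
        apply Finset.sum_congr rfl
        intro m _
        rw [PowerSeries.coeff_X_pow_mul', if_pos (by omega), Nat.add_sub_cancel_left]
        unfold Z1 Yps
        rw [PowerSeries.coeff_mk, pow_add]; ring
    rw [h1, ← mul_sub, abs_mul, abs_pow]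
    have h3 := happ (E - k) (by omega)
    calc |T| ^ k * |S - ∑ m ∈ range (E - k), (Yc g1 m : ℝ) * T ^ m| ≤ |T| ^ k * (B * |T| ^ (E - k)) :=
          mul_le_mul_of_nonneg_left h3 (by positivity)
      _ = B * |T| ^ (k + (E - k)) := by rw [pow_add]; ring
      _ ≤ B * |T| ^ E := by
          apply mul_le_mul_of_nonneg_left _ (by linarith)
          exact pow_le_pow_of_le_one hT0.le hT1 (by omega)

/-- bound for an isobaric sum -/
lemma csT_bound (g n N : ℕ) (t : Bi g n N → ℤ) (j E Emax : ℕ) (hE : E ≤ Emax)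
    (hdvd : PowerSeries.X ^ E ∣ CsT g n N (fun q => (t q : ℚ)) j) (S T B : ℝ) (hT : T ≠ 0)
    (hT1 : |T| ≤ 1) (hB : 1 ≤ B)
    (happ : ∀ M ≤ Emax, |S - ∑ m ∈ range M, (Yc g1 m : ℝ) * T ^ m| ≤ B * |T| ^ M) :
    |∑ q : Bi g n N, ((q.1.1.choose j : ℝ) * t q) * (T ^ q.2.1 * Par.mu S (wt g n N - q.1.1))| ≤
      (∑ q : Bi g n N, |(q.1.1.choose j : ℝ) * t q|) * (B * |T| ^ E) := by
  rw [PowerSeries.X_pow_dvd_iff] at hdvd
  have h0 : ∑ q : Bi g n N, ((q.1.1.choose j : ℝ) * t q) *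
      ∑ e ∈ range E, ((PowerSeries.coeff e (PowerSeries.X ^ q.2.1 * pwT (wt g n N - q.1.1)) : ℚ) : ℝ) * T ^ e = 0 := by
    simp only [Finset.mul_sum]
    rw [Finset.sum_comm]
    apply Finset.sum_eq_zero
    intro e he
    rw [Finset.mem_range] at he
    have h1 := hdvd e he
    unfold CsT at h1
    rw [map_sum] at h1
    have h2 : ∑ q : Bi g n N, ((q.1.1.choose j : ℝ) * t q) *
        ((PowerSeries.coeff e (PowerSeries.X ^ q.2.1 * pwT (wt g n N - q.1.1)) : ℚ) : ℝ) = 0 := by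
      have h3 := congrArg (fun r : ℚ => (r : ℝ)) h1
      simp only [PowerSeries.coeff_C_mul] at h3
      push_cast at h3
      exact h3
    have h4 : ∑ q : Bi g n N, ((q.1.1.choose j : ℝ) * t q) *
        (((PowerSeries.coeff e (PowerSeries.X ^ q.2.1 * pwT (wt g n N - q.1.1)) : ℚ) : ℝ) * T ^ e) =
        (∑ q : Bi g n N, ((q.1.1.choose j : ℝ) * t q) *
        ((PowerSeries.coeff e (PowerSeries.X ^ q.2.1 * pwT (wt g n N - q.1.1)) : ℚ) : ℝ)) * T ^ e := by
      rw [Finset.sum_mul]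
      exact Finset.sum_congr rfl fun q _ => by ring
    rw [h4, h2, zero_mul]
  have h1 : ∑ q : Bi g n N, ((q.1.1.choose j : ℝ) * t q) * (T ^ q.2.1 * Par.mu S (wt g n N - q.1.1)) =
      ∑ q : Bi g n N, ((q.1.1.choose j : ℝ) * t q) * (T ^ q.2.1 * Par.mu S (wt g n N - q.1.1) -
        ∑ e ∈ range E, ((PowerSeries.coeff e (PowerSeries.X ^ q.2.1 * pwT (wt g n N - q.1.1)) : ℚ) : ℝ) * T ^ e) := by
    rw [← sub_zero (∑ q : Bi g n N, ((q.1.1.choose j : ℝ) * t q) * (T ^ q.2.1 * Par.mu S (wt g n N - q.1.1))), ← h0,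
      ← Finset.sum_sub_distrib]
    exact Finset.sum_congr rfl fun q _ => by ring
  rw [h1, Finset.sum_mul]
  refine (Finset.abs_sum_le_sum_abs _ _).trans (Finset.sum_le_sum fun q _ => ?_)
  rw [abs_mul]
  exact mul_le_mul_of_nonneg_left (mono_remT S T B hT hT1 hB Emax happ _ _ E hE) (abs_nonneg _)

/-- integral monomials -/
def mz (g : ℕ) (x y : ℤ) (i : ℕ) : ℤ := if Even i then x ^ (i / 2) else x ^ ((i - dd g) / 2) * y

lemma mz_real (g : ℕ) (x y : ℤ) (w : ℝ) (hw : 0 < w) (hwx : w ^ 2 = x) (i : ℕ) (hi : dd g ≤ i) :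
    ((mz g x y i : ℤ) : ℝ) = w ^ i * Par.mu ((y : ℝ) / w ^ dd g) i := by
  unfold mz Par.mu
  split_ifs with hev
  · obtain ⟨k, hk⟩ := hev
    push_cast
    rw [← hwx, ← pow_mul, mul_one]
    congr 1; omega
  · rw [Nat.not_even_iff_odd] at hev
    obtain ⟨a, ha⟩ := hev
    push_cast
    rw [← hwx, ← pow_mul]
    have h1 : w ^ i = w ^ (2 * ((i - dd g) / 2)) * w ^ dd g := by
      rw [← pow_add]; congr 1
      unfold dd at hi ⊢
      omega
    rw [h1]
    have : w ^ dd g ≠ 0 := by positivity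
    field_simp

/-- coefficients of the specialised auxiliary polynomial -/
def rz (g n N : ℕ) (t : Bi g n N → ℤ) (x y : ℤ) (l : Fin (n + 1)) : ℤ :=
  ∑ m : Fin ((N + n - l.1) / (2 * dd g) + 1),
    t ⟨l, m⟩ * (y ^ 2 - x ^ dd g) ^ m.1 * mz g x y (wt g n N - l.1 - 2 * dd g * m.1)

lemma mlt (g n N : ℕ) (l : Fin (n + 1)) (m : Fin ((N + n - l.1) / (2 * dd g) + 1)) :
    2 * dd g * m.1 ≤ N + n - l.1 := by
  have h2 := m.2
  have h3 : 2 * dd g * m.1 ≤ 2 * dd g * ((N + n - l.1) / (2 * dd g)) := Nat.mul_le_mul_left _ (by omega)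
  have h4 := Nat.mul_div_le (N + n - l.1) (2 * dd g)
  omega

lemma term_real (g n N : ℕ) (x y : ℤ) (w : ℝ) (hw : 0 < w) (hwx : w ^ 2 = x) (l : Fin (n + 1))
    (m : Fin ((N + n - l.1) / (2 * dd g) + 1)) :
    (((y ^ 2 - x ^ dd g) ^ m.1 * mz g x y (wt g n N - l.1 - 2 * dd g * m.1) : ℤ) : ℝ) =
      w ^ (wt g n N - l.1) * ((((y ^ 2 - x ^ dd g : ℤ) : ℝ) / w ^ (2 * dd g)) ^ m.1 *
        Par.mu ((y : ℝ) / w ^ dd g) (wt g n N - l.1)) := by
  have hm := mlt g n N l m
  have hl := l.2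
  rw [Int.cast_mul, Int.cast_pow, mz_real g x y w hw hwx _ (by unfold wt; omega)]
  have h1 : wt g n N - l.1 = (wt g n N - l.1 - 2 * dd g * m.1) + 2 * dd g * m.1 := by
    unfold wt; omega
  have h2 : Par.mu ((y : ℝ) / w ^ dd g) (wt g n N - l.1 - 2 * dd g * m.1) =
      Par.mu ((y : ℝ) / w ^ dd g) (wt g n N - l.1) := by
    unfold Par.mu
    have h3 : Even (wt g n N - l.1 - 2 * dd g * m.1) ↔ Even (wt g n N - l.1) := by
      conv_rhs => rw [h1]
      rw [Nat.even_add]
      have : Even (2 * dd g * m.1) := ⟨dd g * m.1, by ring⟩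
      simp [this]
    simp only [h3]
  rw [h2, div_pow]
  have h4 : w ^ (wt g n N - l.1) = w ^ (wt g n N - l.1 - 2 * dd g * m.1) * (w ^ (2 * dd g)) ^ m.1 := by
    rw [← pow_mul, ← pow_add]
    congr 1
  rw [h4]
  have : (w ^ (2 * dd g)) ^ m.1 ≠ 0 := by positivity
  field_simp

/-- the specialised polynomial in terms of the coefficient polynomials -/
lemma rz_real (g n N : ℕ) (t : Bi g n N → ℤ) (x y : ℤ) (w : ℝ) (hw : 0 < w) (hwx : w ^ 2 = x) (l : Fin (n + 1)) :
    (rz g n N t x y l : ℝ) = evR (((y ^ 2 - x ^ dd g : ℤ) : ℝ) / w ^ (2 * dd g))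
      (pl g n N (fun q => (t q : ℚ)) l) *
        (w ^ (wt g n N - l.1) * Par.mu ((y : ℝ) / w ^ dd g) (wt g n N - l.1)) := by
  unfold rz pl evR
  rw [map_sum, Int.cast_sum, Finset.sum_mul]
  apply Finset.sum_congr rfl
  intro m _
  rw [mul_assoc, Int.cast_mul, term_real g n N x y w hw hwx l m]
  rw [map_mul, map_pow]
  simp only [coe_eval₂RingHom, eval₂_C, eval₂_X, map_intCast]
  ring

/-- Hasse derivatives at the real point -/
lemma hasse_rz (g n N : ℕ) (t : Bi g n N → ℤ) (x y : ℤ) (w : ℝ) (hw : 0 < w)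
    (hwx : w ^ 2 = x) (j : ℕ) (hj : j ≤ n) :
    (hasseDeriv j (poly n (fun l => (rz g n N t x y l : ℝ)))).eval w = w ^ (wt g n N - j) *
      ∑ q : Bi g n N, ((q.1.1.choose j : ℝ) * t q) *
        ((((y ^ 2 - x ^ dd g : ℤ) : ℝ) / w ^ (2 * dd g)) ^ q.2.1 *
          Par.mu ((y : ℝ) / w ^ dd g) (wt g n N - q.1.1)) := by
  rw [poly_apply, map_sum, eval_finsetSum, Finset.mul_sum, Fintype.sum_sigma]
  apply Finset.sum_congr rfl
  intro l _
  rw [hasseDeriv_monomial, eval_monomial]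
  unfold rz
  rw [Int.cast_sum, Finset.mul_sum, Finset.sum_mul]
  apply Finset.sum_congr rfl
  intro m _
  rw [mul_assoc (t ⟨l, m⟩), Int.cast_mul, term_real g n N x y w hw hwx l m]
  rcases Nat.lt_or_ge l.1 j with hl | hl
  · rw [Nat.choose_eq_zero_of_lt hl]; push_cast; ring
  · have h1 : w ^ (wt g n N - l.1) * w ^ (l.1 - j) = w ^ (wt g n N - j) := by
      rw [← pow_add]; congr 1
      have := l.2
      unfold wt
      omega
    rw [← h1]
    ring

end Pool.Agent.W273.M
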